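import Pool.Agent.Work.MP_85f59e_co.Defs
import Mathlib

-- merged part: Pool.Agent.Work.MP_85f59e_co.Latin
section
namespace Pool.Agent.Work.MP_85f59e_co

open Finset Function

variable {d q : ℕ}

/-- Latin hypercubes of dimension `d` and order `q`. -/
def Latin (f : (Fin d → Fin q) → Fin q) : Prop :=
  ∀ z i, Function.Injective fun a => f (Function.update z i a)

open Classical in
noncomputable def latinSet (d q : ℕ) : Finset ((Fin d → Fin q) → Fin q) :=
  Finset.univ.filter Latin

lemma mem_latinSet {f : (Fin d → Fin q) → Fin q} : f ∈ latinSet d q ↔ Latin f := by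
  simp [latinSet]

def graph (f : (Fin d → Fin q) → Fin q) : Finset (Fin (d + 1) → Fin q) :=
  Finset.univ.image fun z => (Fin.cons (f z) z : Fin (d + 1) → Fin q)

lemma mem_graph {f : (Fin d → Fin q) → Fin q} {x : Fin (d + 1) → Fin q} :
    x ∈ graph f ↔ x 0 = f (Fin.tail x) := by
  simp only [graph, mem_image, mem_univ, true_and]
  constructor
  · rintro ⟨z, rfl⟩; simp
  · intro h; exact ⟨Fin.tail x, by rw [← h]; exact Fin.cons_self_tail x⟩

lemma two_le_hamming_iff {n : ℕ} {x y : Fin n → Fin q} (hxy : x ≠ y) :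
    2 ≤ hammingDist x y ↔ ∀ k, ∃ j, j ≠ k ∧ x j ≠ y j := by
  unfold hammingDist
  constructor
  · intro h k
    by_contra hk
    push Not at hk
    have : ({i | x i ≠ y i} : Finset (Fin n)) ⊆ {k} := by
      intro j hj
      simp only [mem_filter, mem_univ, true_and] at hj
      simp only [mem_singleton]
      by_contra hjk
      exact hj (hk j hjk)
    have := card_le_card this
    rw [card_singleton] at this
    omega
  · intro h
    obtain ⟨k, hk⟩ := Function.ne_iff.1 hxy
    obtain ⟨j, hjk, hj⟩ := h k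
    have : ({j, k} : Finset (Fin n)) ⊆ ({i | x i ≠ y i} : Finset (Fin n)) := by
      intro i hi
      simp only [mem_insert, mem_singleton] at hi
      simp only [mem_filter, mem_univ, true_and]
      rcases hi with rfl | rfl <;> assumption
    have h2 := card_le_card this
    rwa [card_pair hjk] at h2

lemma graph_card (f : (Fin d → Fin q) → Fin q) : (graph f).card = q ^ d := by
  rw [graph, card_image_of_injective]
  · simp
  · intro z z' h
    have := congrArg Fin.tail h
    simpa using this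

lemma graph_dist {f : (Fin d → Fin q) → Fin q} (hf : Latin f) :
    ∀ x ∈ graph f, ∀ y ∈ graph f, x ≠ y → 2 ≤ hammingDist x y := by
  intro x hx y hy hxy
  rw [two_le_hamming_iff hxy]
  rw [mem_graph] at hx hy
  intro k
  by_contra hk
  push Not at hk
  apply hxy
  induction k using Fin.cases with
  | zero =>
    have ht : Fin.tail x = Fin.tail y := by
      funext j; exact hk _ (Fin.succ_ne_zero j)
    rw [← Fin.cons_self_tail x, ← Fin.cons_self_tail y, hx, hy, ht]
  | succ k =>
    have h0 : x 0 = y 0 := hk _ (Fin.succ_ne_zero k).symm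
    have hy' : Fin.tail y = update (Fin.tail x) k (y k.succ) := by
      funext j
      by_cases hj : j = k
      · subst hj; simp [Fin.tail]
      · rw [update_of_ne hj]
        exact (hk _ (fun h => hj (Fin.succ_injective _ h))).symm
    have hx' : Fin.tail x = update (Fin.tail x) k (x k.succ) := by
      funext j
      by_cases hj : j = k
      · subst hj; simp [Fin.tail]
      · rw [update_of_ne hj]
    have : x k.succ = y k.succ := by
      apply hf (Fin.tail x) k
      simp only
      rw [← hx', ← hy', ← hx, ← hy, h0]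
    funext j
    by_cases hj : j = k.succ
    · rw [hj, this]
    · exact hk j hj

lemma graph_injective : Function.Injective (graph (d := d) (q := q)) := by
  intro f g h
  funext z
  have : (Fin.cons (f z) z : Fin (d + 1) → Fin q) ∈ graph g := by
    rw [← h, mem_graph]; simp
  rw [mem_graph] at this
  simpa using this

lemma exists_latin_of_code (C : Finset (Fin (d + 1) → Fin q)) (hc : C.card = q ^ d)
    (hd : ∀ x ∈ C, ∀ y ∈ C, x ≠ y → 2 ≤ hammingDist x y) : ∃ f, Latin f ∧ graph f = C := by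
  have hinj : Set.InjOn (fun x : Fin (d + 1) → Fin q => (Fin.tail x : Fin d → Fin q)) C := by
    intro x hx y hy h
    by_contra hxy
    obtain ⟨j, hj, hj'⟩ := (two_le_hamming_iff hxy).1 (hd x hx y hy hxy) 0
    obtain ⟨j, rfl⟩ := Fin.exists_succ_eq.2 hj
    exact hj' (congrFun h j)
  have himg : C.image (fun x : Fin (d + 1) → Fin q => (Fin.tail x : Fin d → Fin q)) = univ := by
    apply eq_univ_of_card
    rw [card_image_of_injOn hinj, hc]
    simp
  have hsurj : ∀ z : Fin d → Fin q, ∃ x ∈ C, Fin.tail x = z := by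
    intro z
    have : z ∈ C.image (fun x : Fin (d + 1) → Fin q => (Fin.tail x : Fin d → Fin q)) := by
      rw [himg]; exact mem_univ _
    simpa using this
  choose c hcC hct using hsurj
  refine ⟨fun z => c z 0, ?_, ?_⟩
  · intro z i a a' h
    simp only at h
    by_contra haa
    have hne : c (update z i a) ≠ c (update z i a') := by
      intro he
      have := congrArg (fun x => Fin.tail x i) he
      simp only [hct, update_self] at this
      exact haa this
    obtain ⟨j, hj, hj'⟩ := (two_le_hamming_iff hne).1 (hd _ (hcC _) _ (hcC _) hne) i.succ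
    apply hj'
    induction j using Fin.cases with
    | zero => exact h
    | succ j =>
      have hji : j ≠ i := fun e => hj (by rw [e])
      have e1 : c (update z i a) j.succ = update z i a j := congrFun (hct _) j
      have e2 : c (update z i a') j.succ = update z i a' j := congrFun (hct _) j
      rw [e1, e2, update_of_ne hji, update_of_ne hji]
  · ext x
    rw [mem_graph]
    constructor
    · intro h
      have : x = c (Fin.tail x) := by
        rw [← Fin.cons_self_tail x, ← Fin.cons_self_tail (c _)]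
        simp only [Fin.tail_cons, hct]
        rw [h]
      rw [this]; exact hcC _
    · intro hx
      have : x = c (Fin.tail x) := hinj hx (hcC _) (hct _).symm
      exact congrFun this 0

lemma numMDS_eq (d q : ℕ) : numMDS q (d + 1) = (latinSet d q).card := by
  rw [numMDS, ← Nat.card_eq_finsetCard]
  symm
  apply Nat.card_eq_of_bijective
    (fun f : {f // f ∈ latinSet d q} => (⟨graph f.1, by simpa using graph_card f.1,
      graph_dist (mem_latinSet.1 f.2)⟩ : {C : Finset (Fin (d + 1) → Fin q) //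
    C.card = q ^ (d + 1 - 1) ∧ ∀ x ∈ C, ∀ y ∈ C, x ≠ y → 2 ≤ hammingDist x y}))
  constructor
  · intro f g h
    exact Subtype.ext (graph_injective (congrArg Subtype.val h))
  · rintro ⟨C, hc, hd⟩
    obtain ⟨f, hf, rfl⟩ := exists_latin_of_code C (by simpa using hc) hd
    exact ⟨⟨f, mem_latinSet.2 hf⟩, rfl⟩

/-- The known lower bound for even order. -/
lemma lower_even (d m : ℕ) (hm : 0 < m) : 2 ^ (m ^ d) ≤ (latinSet d (2 * m)).card := by
  have : NeZero m := ⟨hm.ne'⟩
  let e : Fin (2 * m) ≃ ZMod 2 × ZMod m := Fintype.equivOfCardEq (by simp)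
  let F : ((Fin d → ZMod m) → ZMod 2) → ((Fin d → Fin (2 * m)) → Fin (2 * m)) :=
    fun g z => e.symm (∑ i, (e (z i)).1 + g (fun i => (e (z i)).2), ∑ i, (e (z i)).2)
  have hF : ∀ g, Latin (F g) := by
    intro g z i a a' h
    simp only [F, EmbeddingLike.apply_eq_iff_eq, Prod.mk.injEq] at h
    obtain ⟨h1, h2⟩ := h
    have key : ∀ {G : Type} [AddCommGroup G] (p : Fin (2 * m) → G) (c : Fin (2 * m)),
        ∑ j, p (update z i c j) = p c + ∑ j ∈ univ.erase i, p (z j) := by
      intro G _ p c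
      rw [← add_sum_erase _ _ (mem_univ i), update_self]
      congr 1
      exact sum_congr rfl fun j hj => by rw [update_of_ne (ne_of_mem_erase hj)]
    rw [key (fun c => (e c).2), key (fun c => (e c).2)] at h2
    have h2' : (e a).2 = (e a').2 := add_right_cancel h2
    have h3 : (fun j => (e (update z i a j)).2) = fun j => (e (update z i a' j)).2 := by
      funext j
      by_cases hj : j = i
      · subst hj; simp [h2']
      · rw [update_of_ne hj, update_of_ne hj]
    rw [h3, key (fun c => (e c).1), key (fun c => (e c).1)] at h1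
    have h1' : (e a).1 = (e a').1 := add_right_cancel (add_right_cancel h1)
    exact e.injective (Prod.ext h1' h2')
  have hinj : Function.Injective F := by
    intro g g' h
    funext b
    have := congrFun h (fun i => e.symm (0, b i))
    simpa [F] using this
  calc 2 ^ (m ^ d) = (univ : Finset ((Fin d → ZMod m) → ZMod 2)).card := by simp
    _ ≤ (latinSet d (2 * m)).card :=
      card_le_card_of_injOn F (fun g _ => mem_latinSet.2 (hF g)) hinj.injOn

end Pool.Agent.Work.MP_85f59e_co
end

-- merged part: Pool.Agent.Work.MP_85f59e_co.Kraft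
section
namespace Pool.Agent.Work.MP_85f59e_co

open Finset Function
open scoped BigOperators

/-- Kraft-type inequality for sequential predictions. -/
lemma kraft {X Y α : Type*} [Fintype X] [DecidableEq X] [Fintype Y] [Nonempty Y] [LinearOrder α]
    (key : X → α) (W : (X → Y) → X → Y → ℝ) (h0 : ∀ g x y, 0 ≤ W g x y)
    (h1 : ∀ g x, ∑ y, W g x y ≤ 1)
    (hdep : ∀ g g' x, (∀ x', key x' < key x → g x' = g' x') → W g x = W g' x) :
    ∑ g : X → Y, ∏ x, W g x (g x) ≤ 1 := by
  classical
  have hY : (0 : ℝ) < Fintype.card Y := by exact_mod_cast Fintype.card_pos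
  have main : ∀ s : Finset X, (∑ g : X → Y, ∏ x ∈ s, W g x (g x)) * (Fintype.card Y : ℝ) ^ s.card
      ≤ (Fintype.card Y : ℝ) ^ Fintype.card X := by
    intro s
    induction s using Finset.induction_on_max_value key with
    | empty => simp
    | insert a s ha hmax ih =>
      rw [card_insert_of_notMem ha, pow_succ, mul_comm _ (Fintype.card Y : ℝ), ← mul_assoc]
      refine le_trans ?_ ih
      gcongr
      -- sum over `g` of the product, times `|Y|`
      let e : ((X → Y) × Y) ≃ ((X → Y) × Y) :=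
        { toFun := fun p => (update p.1 a p.2, p.1 a)
          invFun := fun p => (update p.1 a p.2, p.1 a)
          left_inv := by rintro ⟨g, y⟩; simp
          right_inv := by rintro ⟨g, y⟩; simp }
      have e1 : (∑ g : X → Y, ∏ x ∈ insert a s, W g x (g x)) * (Fintype.card Y : ℝ)
          = ∑ p : (X → Y) × Y, ∏ x ∈ insert a s, W p.1 x (p.1 x) := by
        rw [Fintype.sum_prod_type, sum_mul]
        refine sum_congr rfl fun g _ => ?_
        simp [mul_comm]
      rw [e1, ← Equiv.sum_comp e, Fintype.sum_prod_type]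
      refine sum_le_sum fun g _ => ?_
      have e2 : ∀ y, ∏ x ∈ insert a s, W (e (g, y)).1 x ((e (g, y)).1 x)
          = W g a y * ∏ x ∈ s, W g x (g x) := by
        intro y
        rw [prod_insert ha]
        have hu : (e (g, y)).1 = update g a y := rfl
        rw [hu]
        congr 1
        · rw [update_self, hdep (update g a y) g a]
          intro x' hx'
          rw [update_of_ne]
          rintro rfl
          exact lt_irrefl _ hx'
        · refine prod_congr rfl fun x hx => ?_
          have hxa : x ≠ a := by rintro rfl; exact ha hx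
          rw [update_of_ne hxa, hdep (update g a y) g x]
          intro x' hx'
          rw [update_of_ne]
          rintro rfl
          exact absurd (hmax x hx) (not_le.2 hx')
      simp_rw [e2]
      rw [← sum_mul]
      have : 0 ≤ ∏ x ∈ s, W g x (g x) := prod_nonneg fun _ _ => h0 _ _ _
      calc (∑ y, W g a y) * ∏ x ∈ s, W g x (g x) ≤ 1 * ∏ x ∈ s, W g x (g x) := by
            gcongr; exact h1 g a
        _ = _ := one_mul _
  have := main univ
  rw [card_univ] at this
  have hp : (0 : ℝ) < (Fintype.card Y : ℝ) ^ Fintype.card X := by positivity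
  calc _ = (∑ g : X → Y, ∏ x, W g x (g x)) * (Fintype.card Y : ℝ) ^ Fintype.card X
            / (Fintype.card Y : ℝ) ^ Fintype.card X := by field_simp
    _ ≤ (Fintype.card Y : ℝ) ^ Fintype.card X / (Fintype.card Y : ℝ) ^ Fintype.card X := by
        gcongr
    _ = 1 := div_self hp.ne'

/-- Averaged form: a family of predictors with small average cost bounds the cardinality. -/
lemma card_le_exp {X Y α Ω : Type*} [Fintype X] [DecidableEq X] [Fintype Y] [Nonempty Y]
    [LinearOrder α] [Fintype Ω] [Nonempty Ω]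
    (key : Ω → X → α) (W : Ω → (X → Y) → X → Y → ℝ) (h0 : ∀ ω g x y, 0 ≤ W ω g x y)
    (h1 : ∀ ω g x, ∑ y, W ω g x y ≤ 1)
    (hdep : ∀ ω g g' x, (∀ x', key ω x' < key ω x → g x' = g' x') → W ω g x = W ω g' x)
    (S : Finset (X → Y)) (cost : Ω → (X → Y) → ℝ) (M : ℝ)
    (hc : ∀ ω, ∀ f ∈ S, Real.exp (-cost ω f) ≤ ∏ x, W ω f x (f x))
    (hM : ∀ f ∈ S, 𝔼 ω, cost ω f ≤ M) : (S.card : ℝ) ≤ Real.exp M := by
  classical
  have h2 : ∀ ω, ∑ f ∈ S, Real.exp (-cost ω f) ≤ 1 := by
    intro ω
    calc ∑ f ∈ S, Real.exp (-cost ω f) ≤ ∑ f ∈ S, ∏ x, W ω f x (f x) :=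
          sum_le_sum fun f hf => hc ω f hf
      _ ≤ ∑ f, ∏ x, W ω f x (f x) :=
          sum_le_sum_of_subset_of_nonneg (subset_univ _)
            fun _ _ _ => prod_nonneg fun _ _ => h0 _ _ _ _
      _ ≤ 1 := kraft (key ω) (W ω) (h0 ω) (h1 ω) (hdep ω)
  have h3 : ∀ f ∈ S, Real.exp (-M) ≤ 𝔼 ω, Real.exp (-cost ω f) := by
    intro f hf
    have : ∀ ω, Real.exp (-M) * (1 + M - cost ω f) ≤ Real.exp (-cost ω f) := by
      intro ω
      have := Real.add_one_le_exp (M - cost ω f)
      calc Real.exp (-M) * (1 + M - cost ω f) ≤ Real.exp (-M) * Real.exp (M - cost ω f) := by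
            gcongr; linarith
        _ = _ := by rw [← Real.exp_add]; ring_nf
    calc Real.exp (-M) = Real.exp (-M) * 1 := (mul_one _).symm
      _ ≤ Real.exp (-M) * (1 + M - 𝔼 ω, cost ω f) := by
          gcongr; linarith [hM f hf]
      _ = 𝔼 ω, Real.exp (-M) * (1 + M - cost ω f) := by
          rw [← mul_expect, expect_sub_distrib, Fintype.expect_const]
      _ ≤ _ := expect_le_expect fun ω _ => this ω
  have h4 : (S.card : ℝ) * Real.exp (-M) ≤ 1 := by
    calc (S.card : ℝ) * Real.exp (-M) = ∑ f ∈ S, Real.exp (-M) := by simp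
      _ ≤ ∑ f ∈ S, 𝔼 ω, Real.exp (-cost ω f) := sum_le_sum h3
      _ = 𝔼 ω, ∑ f ∈ S, Real.exp (-cost ω f) := (expect_sum_comm _ _ _).symm
      _ ≤ 1 := expect_le univ_nonempty fun ω _ => h2 ω
  calc (S.card : ℝ) = (S.card : ℝ) * Real.exp (-M) * Real.exp M := by
        rw [mul_assoc, ← Real.exp_add]; simp
    _ ≤ 1 * Real.exp M := by gcongr
    _ = _ := one_mul _

lemma expect_pi_prod {ι P : Type*} [Fintype ι] [DecidableEq ι] [Fintype P]
    (ψ : ι → P → ℝ) : 𝔼 π : ι → P, ∏ i, ψ i (π i) = ∏ i, 𝔼 σ, ψ i σ := by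
  simp only [Fintype.expect_eq_sum_div_card]
  rw [prod_div_distrib, prod_univ_sum, Fintype.piFinset_univ]
  simp

/-- Independence over disjoint blocks of coordinates. -/
lemma expect_blocks {ι P β : Type*} [Fintype ι] [DecidableEq ι] [Fintype P] [DecidableEq β]
    (e F : ι → P → ℝ) (c : ℝ) (hc : c ≠ 0) (he : ∀ i, 𝔼 σ, e i σ = c)
    (B : Finset β) (J : β → Finset ι) (hJ : (B : Set β).PairwiseDisjoint J) :
    𝔼 π : ι → P, (∏ i, e i (π i)) * ∏ b ∈ B, (1 - ∏ i ∈ J b, F i (π i))
      = c ^ Fintype.card ι * ∏ b ∈ B, (1 - ∏ i ∈ J b, ((𝔼 σ, e i σ * F i σ) / c)) := by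
  have expand : ∀ x : β → ℝ, ∏ b ∈ B, (1 - x b) = ∑ T ∈ B.powerset, (-1) ^ T.card * ∏ b ∈ T, x b := by
    intro x
    have : ∀ b, 1 - x b = (-x b) + 1 := fun b => by ring
    simp_rw [this]
    rw [prod_add_one]
    refine sum_congr rfl fun T _ => ?_
    rw [prod_neg]
  simp_rw [expand, mul_sum]
  rw [expect_sum_comm]
  refine sum_congr rfl fun T hT => ?_
  have hTB : T ⊆ B := mem_powerset.1 hT
  have hJT : (T : Set β).PairwiseDisjoint J := hJ.subset (coe_subset.2 hTB)
  have e1 : ∀ π : ι → P, (∏ i, e i (π i)) * ((-1) ^ T.card * ∏ b ∈ T, ∏ i ∈ J b, F i (π i))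
      = (-1) ^ T.card * ∏ i, (e i (π i) * if i ∈ T.biUnion J then F i (π i) else 1) := by
    intro π
    rw [← prod_biUnion hJT, prod_mul_distrib, prod_ite_mem, univ_inter]
    ring
  simp_rw [e1]
  rw [← mul_expect, expect_pi_prod (fun i σ => e i σ * if i ∈ T.biUnion J then F i σ else 1),
    ← prod_biUnion hJT]
  have e2 : ∀ i, (𝔼 σ, e i σ * if i ∈ T.biUnion J then F i σ else 1)
      = c * if i ∈ T.biUnion J then (𝔼 σ, e i σ * F i σ) / c else 1 := by
    intro i
    split_ifs
    · field_simp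
    · simp [he]
  simp_rw [e2]
  rw [prod_mul_distrib, prod_ite_mem, univ_inter, prod_const, card_univ]
  ring

section perms

variable {q : ℕ}

/-- real indicator -/
noncomputable def ind (p : Prop) : ℝ := by classical exact if p then 1 else 0

lemma ind_nonneg (p : Prop) : 0 ≤ ind p := by unfold ind; split_ifs <;> norm_num
lemma ind_le_one (p : Prop) : ind p ≤ 1 := by unfold ind; split_ifs <;> norm_num
lemma ind_of {p : Prop} (h : p) : ind p = 1 := by unfold ind; simp [h]
lemma ind_of_not {p : Prop} (h : ¬ p) : ind p = 0 := by unfold ind; simp [h]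
lemma ind_and (p r : Prop) : ind (p ∧ r) = ind p * ind r := by
  by_cases hp : p <;> by_cases hr : r <;> simp [ind, hp, hr]
lemma ind_mono {p r : Prop} (h : p → r) : ind p ≤ ind r := by
  by_cases hp : p
  · rw [ind_of hp, ind_of (h hp)]
  · rw [ind_of_not hp]; exact ind_nonneg _
lemma ind_congr {p r : Prop} (h : p ↔ r) : ind p = ind r := by rw [propext h]

lemma expect_perm_mul (τ : Equiv.Perm (Fin q)) (φ : Equiv.Perm (Fin q) → ℝ) :
    𝔼 σ, φ (σ * τ) = 𝔼 σ, φ σ :=
  Fintype.expect_equiv (Equiv.mulRight τ) _ _ fun _ => rfl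

lemma expect_lt2 {x y : Fin q} (h : x ≠ y) :
    𝔼 σ : Equiv.Perm (Fin q), ind (σ x < σ y) = 1 / 2 := by
  have h1 := expect_perm_mul (Equiv.swap x y) (fun σ => ind (σ x < σ y))
  simp only [Equiv.Perm.coe_mul, comp_apply, Equiv.swap_apply_left, Equiv.swap_apply_right] at h1
  have h2 : 𝔼 σ : Equiv.Perm (Fin q), (ind (σ x < σ y) + ind (σ y < σ x)) = 1 := by
    have : ∀ σ : Equiv.Perm (Fin q), ind (σ x < σ y) + ind (σ y < σ x) = 1 := by
      intro σ
      rcases lt_or_gt_of_ne (σ.injective.ne h) with h' | h'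
      · rw [ind_of h', ind_of_not (not_lt.2 h'.le)]; norm_num
      · rw [ind_of h', ind_of_not (not_lt.2 h'.le)]; norm_num
    simp_rw [this]
    exact Fintype.expect_const _
  rw [expect_add_distrib] at h2
  linarith only [h1, h2]

lemma expect_lt3 {b x y : Fin q} (hbx : b ≠ x) (hby : b ≠ y) (hxy : x ≠ y) :
    𝔼 σ : Equiv.Perm (Fin q), ind (σ x < σ y) * ind (σ b < σ x) = 1 / 6 := by
  let c : Fin q → Fin q → Fin q → ℝ := fun b x y =>
    𝔼 σ : Equiv.Perm (Fin q), ind (σ x < σ y) * ind (σ b < σ x)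
  have s1 : ∀ b x y, b ≠ y → x ≠ y → c b x y = c x b y := by
    intro b x y hby hxy
    have h1 := expect_perm_mul (Equiv.swap b x) (fun σ => ind (σ x < σ y) * ind (σ b < σ x))
    simp only [Equiv.Perm.coe_mul, comp_apply, Equiv.swap_apply_left, Equiv.swap_apply_right,
      Equiv.swap_apply_of_ne_of_ne hby.symm hxy.symm] at h1
    exact h1.symm
  have s2 : ∀ b x y, b ≠ y → b ≠ x → c b x y = c b y x := by
    intro b x y hby hbx
    have h1 := expect_perm_mul (Equiv.swap x y) (fun σ => ind (σ x < σ y) * ind (σ b < σ x))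
    simp only [Equiv.Perm.coe_mul, comp_apply, Equiv.swap_apply_left, Equiv.swap_apply_right,
      Equiv.swap_apply_of_ne_of_ne hbx hby] at h1
    exact h1.symm
  have h2 : c b x y + c x b y + c x y b + c y x b + c y b x + c b y x = 1 := by
    simp only [c]
    rw [← expect_add_distrib, ← expect_add_distrib, ← expect_add_distrib, ← expect_add_distrib,
      ← expect_add_distrib]
    have : ∀ σ : Equiv.Perm (Fin q), ind (σ x < σ y) * ind (σ b < σ x)
        + ind (σ b < σ y) * ind (σ x < σ b) + ind (σ y < σ b) * ind (σ x < σ y)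
        + ind (σ x < σ b) * ind (σ y < σ x) + ind (σ b < σ x) * ind (σ y < σ b)
        + ind (σ y < σ x) * ind (σ b < σ y) = 1 := by
      intro σ
      have h1 := σ.injective.ne hbx
      have h2 := σ.injective.ne hby
      have h3 := σ.injective.ne hxy
      simp only [ind, Fin.lt_def, ne_eq, Fin.ext_iff] at *
      split_ifs <;> first | omega | norm_num
    simp_rw [this]
    exact Fintype.expect_const _
  have e1 := s1 b x y hby hxy
  have e2 := s2 x b y hxy hbx.symm
  have e3 := s1 x y b hbx.symm hby.symm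
  have e4 := s2 y x b hby.symm hxy.symm
  have e5 := s1 y b x hxy.symm hbx
  change c b x y = 1 / 6
  linarith only [h2, e1, e2, e3, e4, e5]

lemma exists_perm_last {x y : Fin q} (h : x ≠ y) :
    ∃ σ : Equiv.Perm (Fin q), σ x < σ y ∧ ∀ c, c ≠ x → c ≠ y → σ c < σ x := by
  have hq : 2 ≤ q := by
    have := x.2; have := y.2
    have : x.1 ≠ y.1 := fun e => h (Fin.ext e)
    omega
  let L : Fin q := ⟨q - 1, by omega⟩
  let L' : Fin q := ⟨q - 2, by omega⟩
  have hLL : L ≠ L' := by
    simp only [L, L', ne_eq, Fin.mk.injEq]; omega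
  let σ1 : Equiv.Perm (Fin q) := Equiv.swap y L
  have h1 : σ1 y = L := Equiv.swap_apply_left _ _
  have h2 : σ1 x ≠ L := by rw [← h1]; exact σ1.injective.ne h
  let σ : Equiv.Perm (Fin q) := Equiv.swap (σ1 x) L' * σ1
  have hx : σ x = L' := by simp [σ]
  have hy : σ y = L := by
    simp only [σ, Equiv.Perm.coe_mul, comp_apply, h1]
    exact Equiv.swap_apply_of_ne_of_ne h2.symm hLL
  refine ⟨σ, ?_, ?_⟩
  · rw [hx, hy]; simp only [L, L', Fin.mk_lt_mk]; omega
  · intro c hcx hcy
    have a1 : σ c ≠ L' := by rw [← hx]; exact σ.injective.ne hcx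
    have a2 : σ c ≠ L := by rw [← hy]; exact σ.injective.ne hcy
    rw [hx]
    have := (σ c).2
    simp only [L, L', ne_eq, Fin.ext_iff, Fin.lt_def] at *
    omega

lemma expect_last {x y : Fin q} (h : x ≠ y) :
    1 / (q.factorial : ℝ) ≤
      𝔼 σ : Equiv.Perm (Fin q), ind (σ x < σ y) * ind (∀ c, c ≠ x → c ≠ y → σ c < σ x) := by
  obtain ⟨σ0, h1, h2⟩ := exists_perm_last h
  rw [Fintype.expect_eq_sum_div_card, Fintype.card_perm, Fintype.card_fin]
  gcongr
  calc (1 : ℝ) = ind (σ0 x < σ0 y) * ind (∀ c, c ≠ x → c ≠ y → σ0 c < σ0 x) := by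
        rw [ind_of h1, ind_of h2]; norm_num
    _ ≤ _ := single_le_sum (f := fun σ : Equiv.Perm (Fin q) =>
          ind (σ x < σ y) * ind (∀ c, c ≠ x → c ≠ y → σ c < σ x))
        (fun _ _ => mul_nonneg (ind_nonneg _) (ind_nonneg _)) (mem_univ σ0)

end perms

end Pool.Agent.Work.MP_85f59e_co
end

-- merged part: Pool.Agent.Work.MP_85f59e_co.Boxes
section
namespace Pool.Agent.Work.MP_85f59e_co

open Finset Function
open scoped BigOperators

variable {d q : ℕ}

/-- position of the symbol `s` on the line through `z` in direction `i` -/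
noncomputable def pos (f : (Fin d → Fin q) → Fin q) (z : Fin d → Fin q) (s : Fin q) (i : Fin d) :
    Fin q :=
  haveI : Nonempty (Fin q) := ⟨s⟩
  Function.invFun (fun a => f (update z i a)) s

lemma Latin.surj {f : (Fin d → Fin q) → Fin q} (hf : Latin f) (z : Fin d → Fin q) (i : Fin d) :
    Function.Surjective fun a => f (update z i a) :=
  Finite.injective_iff_surjective.1 (hf z i)

lemma pos_spec {f : (Fin d → Fin q) → Fin q} (hf : Latin f) (z : Fin d → Fin q) (s : Fin q)
    (i : Fin d) : f (update z i (pos f z s i)) = s := by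
  have : Nonempty (Fin q) := ⟨s⟩
  exact Function.invFun_eq (hf.surj z i s)

lemma pos_eq {f : (Fin d → Fin q) → Fin q} (hf : Latin f) {z : Fin d → Fin q} {s : Fin q}
    {i : Fin d} {a : Fin q} (h : f (update z i a) = s) : pos f z s i = a :=
  hf z i (by simp only; rw [pos_spec hf, h])

lemma pos_ne {f : (Fin d → Fin q) → Fin q} (hf : Latin f) {z : Fin d → Fin q} {s : Fin q}
    (hs : s ≠ f z) (i : Fin d) : pos f z s i ≠ z i := by
  intro h
  have := pos_spec hf z s i
  rw [h, update_eq_self] at this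
  exact hs this.symm

lemma pos_ne_pos {f : (Fin d → Fin q) → Fin q} (hf : Latin f) {z : Fin d → Fin q} {s s' : Fin q}
    (hs : s ≠ s') (i : Fin d) : pos f z s i ≠ pos f z s' i := by
  intro h
  have := pos_spec hf z s i
  rw [h, pos_spec hf] at this
  exact hs this.symm

def alt (u s : Fin q) (k : ℕ) : Fin q := if Even k then u else s

lemma alt_succ (u s : Fin q) (k : ℕ) : alt u s (k + 1) = alt s u k := by
  unfold alt
  by_cases h : Even k <;> simp [Nat.even_add_one, h]

lemma alt_ne {u s : Fin q} (h : u ≠ s) (k : ℕ) : alt u s k ≠ alt s u k := by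
  unfold alt
  split_ifs
  · exact h
  · exact h.symm

@[simp] lemma alt_zero (u s : Fin q) : alt u s 0 = u := by simp [alt]
@[simp] lemma alt_one (u s : Fin q) : alt u s 1 = s := by simp [alt]
@[simp] lemma alt_two (u s : Fin q) : alt u s 2 = u := by simp [alt]

lemma alt_mem (u s : Fin q) (k : ℕ) : alt u s k = u ∨ alt u s k = s := by
  unfold alt; split_ifs <;> simp

/-- the box at `z` for the symbol `s` in the directions `J` is a subcube of order two -/
def Full (f : (Fin d → Fin q) → Fin q) (J : Finset (Fin d)) (z : Fin d → Fin q) (s : Fin q) :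
    Prop :=
  ∀ T ⊆ J, f (T.piecewise (pos f z s) z) = alt (f z) s T.card

def key (π : Fin d → Equiv.Perm (Fin q)) (z : Fin d → Fin q) : Lex (Fin d → Fin q) :=
  toLex fun i => π i (z i)

lemma key_lt {π : Fin d → Equiv.Perm (Fin q)} {y z : Fin d → Fin q} (i : Fin d)
    (h1 : ∀ j < i, y j = z j) (h2 : π i (y i) < π i (z i)) : key π y < key π z :=
  ⟨i, fun j hj => by simp [key, h1 j hj], h2⟩

lemma key_update_lt {π : Fin d → Equiv.Perm (Fin q)} {z : Fin d → Fin q} {i : Fin d} {a : Fin q}
    (h : π i a < π i (z i)) : key π (update z i a) < key π z :=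
  key_lt i (fun j hj => update_of_ne hj.ne _ _) (by simpa using h)

lemma key_piecewise_lt {π : Fin d → Equiv.Perm (Fin q)} {z b : Fin d → Fin q}
    {T : Finset (Fin d)} (hT : T.Nonempty) (h : ∀ i ∈ T, π i (b i) < π i (z i)) :
    key π (T.piecewise b z) < key π z := by
  refine key_lt (T.min' hT) (fun j hj => ?_) ?_
  · exact piecewise_eq_of_notMem _ _ _ (fun hjT => absurd (T.min'_le j hjT) (not_le.2 hj))
  · rw [piecewise_eq_of_mem _ _ _ (T.min'_mem hT)]
    exact h _ (T.min'_mem hT)

/-- `u` is a possible value at `z` given the values of `g` at the cells preceding `z` -/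
def Avail (π : Fin d → Equiv.Perm (Fin q)) (g : (Fin d → Fin q) → Fin q) (z : Fin d → Fin q)
    (u : Fin q) : Prop :=
  ∃ h, Latin h ∧ (∀ y, key π y < key π z → h y = g y) ∧ h z = u

lemma avail_lt {π : Fin d → Equiv.Perm (Fin q)} {f : (Fin d → Fin q) → Fin q} (hf : Latin f)
    {z : Fin d → Fin q} {s : Fin q} (hs : s ≠ f z) (ha : Avail π f z s) (i : Fin d) :
    π i (z i) < π i (pos f z s i) := by
  obtain ⟨h, hh, hp, hz⟩ := ha
  rcases lt_or_gt_of_ne ((π i).injective.ne (pos_ne hf hs i)) with h1 | h1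
  · exfalso
    have e1 := hp _ (key_update_lt h1)
    rw [pos_spec hf] at e1
    have : pos f z s i = z i := hh z i (by simp only [update_eq_self]; rw [e1, hz])
    exact pos_ne hf hs i this
  · exact h1

lemma line_swap {f h : (Fin d → Fin q) → Fin q} (hf : Latin f) (hh : Latin h)
    {y : Fin d → Fin q} {i : Fin d} {a : Fin q}
    (hagree : ∀ c, c ≠ y i → c ≠ a → h (update y i c) = f (update y i c)) (hne : f y ≠ h y) :
    f (update y i a) = h y := by
  obtain ⟨c, hc⟩ := hf.surj y i (h y)
  simp only at hc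
  by_cases h1 : c = y i
  · rw [h1, update_eq_self] at hc; exact absurd hc hne
  by_cases h2 : c = a
  · rw [← h2]; exact hc
  · exfalso
    apply h1
    apply hh y i
    simp only [update_eq_self]
    rw [hagree c h1 h2, hc]

lemma avail_full {π : Fin d → Equiv.Perm (Fin q)} {f : (Fin d → Fin q) → Fin q} (hf : Latin f)
    {z : Fin d → Fin q} {s : Fin q} (hs : s ≠ f z) (ha : Avail π f z s) (J : Finset (Fin d))
    (hJ : ∀ i ∈ J, ∀ c, c ≠ z i → c ≠ pos f z s i → π i c < π i (z i)) : Full f J z s := by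
  obtain ⟨h, hh, hp, hz⟩ := ha
  suffices H : ∀ T ⊆ J, f (T.piecewise (pos f z s) z) = alt (f z) s T.card ∧
      h (T.piecewise (pos f z s) z) = alt s (f z) T.card from fun T hT => (H T hT).1
  induction J using Finset.induction_on_min with
  | empty =>
    intro T hT
    rw [subset_empty.1 hT]
    simp [hz]
  | insert i J hi ih =>
    have ih' := ih (fun j hj => hJ j (mem_insert_of_mem hj))
    intro T hT
    by_cases hiT : i ∈ T
    · have hT' : T.erase i ⊆ J := by
        intro j hj
        have := hT (mem_of_mem_erase hj)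
        rcases mem_insert.1 this with rfl | h'
        · exact absurd rfl (ne_of_mem_erase hj)
        · exact h'
      obtain ⟨e1, e2⟩ := ih' _ hT'
      set y := (T.erase i).piecewise (pos f z s) z with hy
      have hyi : y i = z i := piecewise_eq_of_notMem _ _ _ (notMem_erase _ _)
      have hTy : T.piecewise (pos f z s) z = update y i (pos f z s i) := by
        conv_lhs => rw [← insert_erase hiT]
        rw [piecewise_insert]
      have hcard : T.card = (T.erase i).card + 1 := (card_erase_add_one hiT).symm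
      have hagree : ∀ c, c ≠ y i → c ≠ pos f z s i → h (update y i c) = f (update y i c) := by
        intro c h1 h2
        apply hp
        refine key_lt i (fun j hj => ?_) ?_
        · rw [update_of_ne hj.ne]
          exact piecewise_eq_of_notMem _ _ _
            (fun hjT => absurd (hi j (hT' hjT)) (not_lt.2 hj.le))
        · rw [update_self]
          exact hJ i (mem_insert_self _ _) c (hyi ▸ h1) h2
      have hne : f y ≠ h y := by rw [e1, e2]; exact alt_ne hs.symm _
      rw [hTy, hcard, alt_succ, alt_succ, ← e1, ← e2]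
      exact ⟨line_swap hf hh hagree hne,
        line_swap hh hf (fun c h1 h2 => (hagree c h1 h2).symm) hne.symm⟩
    · exact ih' T ((subset_insert_iff_of_notMem hiT).1 hT)

/-- a box in directions `J` alternating between `u` and `s` except at its corner `z` -/
def Punct (f : (Fin d → Fin q) → Fin q) (J : Finset (Fin d)) (z : Fin d → Fin q) (u s : Fin q) :
    Prop :=
  f z ≠ u ∧ f z ≠ s ∧ u ≠ s ∧
    ∀ T ⊆ J, T.Nonempty → f (T.piecewise (pos f z s) z) = alt u s T.card

lemma piecewise_update_mem {z b : Fin d → Fin q} {T : Finset (Fin d)} {i : Fin d} :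
    update (T.piecewise b z) i (z i) = (T.erase i).piecewise b z := by
  funext j
  by_cases hj : j = i
  · subst hj; simp
  · rw [update_of_ne hj]
    by_cases hjT : j ∈ T
    · rw [piecewise_eq_of_mem _ _ _ hjT, piecewise_eq_of_mem _ _ _ (mem_erase.2 ⟨hj, hjT⟩)]
    · rw [piecewise_eq_of_notMem _ _ _ hjT,
        piecewise_eq_of_notMem _ _ _ (fun h => hjT (mem_of_mem_erase h))]

lemma punct_partner {f : (Fin d → Fin q) → Fin q} (hf : Latin f) {J : Finset (Fin d)}
    {z : Fin d → Fin q} {u s : Fin q} (hP : Punct f J z u s) {T : Finset (Fin d)} (hT : T ⊆ J)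
    (hT2 : T.card = 2) {i : Fin d} (hi : i ∈ J) :
    pos f (T.piecewise (pos f z s) z) s i = if i ∈ T then z i else pos f z s i := by
  apply pos_eq hf
  split_ifs with hiT
  · rw [piecewise_update_mem, hP.2.2.2 _ ((erase_subset _ _).trans hT)
      (by rw [← card_pos, card_erase_of_mem hiT]; omega), card_erase_of_mem hiT, hT2]
    simp
  · rw [← piecewise_insert, hP.2.2.2 _ (insert_subset hi hT) (insert_nonempty _ _),
      card_insert_of_notMem hiT, hT2]
    simp [alt]
    intro h; exact absurd h (by decide)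

lemma punct_unique {f : (Fin d → Fin q) → Fin q} (hf : Latin f) {J : Finset (Fin d)}
    {z z' : Fin d → Fin q} {u s : Fin q} (hP : Punct f J z u s) (hP' : Punct f J z' u s)
    {T T' : Finset (Fin d)} (hT : T ⊆ J) (hT2 : T.card = 2) (hT' : T' ⊆ J) (hT2' : T'.card = 2)
    (h : T.piecewise (pos f z s) z = T'.piecewise (pos f z' s) z') : z = z' ∧ T = T' := by
  have hzz : z = z' := by
    let U : Finset (Fin d) := J.filter fun i => z' i ≠ z i
    have hU : U.piecewise (pos f z s) z = z' := by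
      funext i
      have hi := congrFun h i
      by_cases hiJ : i ∈ J
      · have e1 := punct_partner hf hP hT hT2 hiJ
        have e2 := punct_partner hf hP' hT' hT2' hiJ
        rw [h, e2] at e1
        by_cases hiU : i ∈ U
        · rw [piecewise_eq_of_mem _ _ _ hiU]
          have hne : z' i ≠ z i := (mem_filter.1 hiU).2
          by_cases a1 : i ∈ T <;> by_cases a2 : i ∈ T' <;>
            simp only [piecewise, a1, a2, if_true, if_false] at hi e1
          · exact absurd e1 hne
          · exact hi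
          · exact e1.symm
          · exact absurd hi.symm hne
        · rw [piecewise_eq_of_notMem _ _ _ hiU]
          by_contra hne
          exact hiU (mem_filter.2 ⟨hiJ, fun e => hne e.symm⟩)
      · have a1 : i ∉ T := fun a => hiJ (hT a)
        have a2 : i ∉ T' := fun a => hiJ (hT' a)
        have a3 : i ∉ U := fun a => hiJ (mem_filter.1 a).1
        simp only [piecewise, a1, a2, a3, if_false] at hi ⊢
        exact hi
    by_contra hne
    have hUne : U.Nonempty := by
      rw [nonempty_iff_ne_empty]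
      intro hU0
      rw [hU0, piecewise_empty] at hU
      exact hne hU
    have := hP.2.2.2 U (filter_subset _ _) hUne
    rw [hU] at this
    rcases alt_mem u s U.card with e | e
    · exact hP'.1 (this.trans e)
    · exact hP'.2.1 (this.trans e)
  subst hzz
  refine ⟨rfl, ?_⟩
  ext i
  have hi := congrFun h i
  have hne := pos_ne hf (Ne.symm hP.2.1) i
  by_cases a1 : i ∈ T <;> by_cases a2 : i ∈ T' <;>
    simp only [piecewise, a1, a2, if_true, if_false] at hi ⊢
  · exact absurd hi hne
  · exact absurd hi.symm hne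

lemma punct_count {f : (Fin d → Fin q) → Fin q} (hf : Latin f) (J : Finset (Fin d)) (u s : Fin q) :
    (∑ z, ind (Punct f J z u s)) * (J.card.choose 2 : ℝ) ≤ (q : ℝ) ^ d := by
  classical
  have h1 : ∑ z, ind (Punct f J z u s) = ((univ.filter fun z => Punct f J z u s).card : ℝ) := by
    rw [card_filter]
    push_cast
    refine sum_congr rfl fun z _ => ?_
    unfold ind
    congr
  rw [h1, ← card_powersetCard 2 J]
  have : ((univ.filter fun z => Punct f J z u s) ×ˢ powersetCard 2 J).card
      ≤ (univ : Finset (Fin d → Fin q)).card := by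
    apply card_le_card_of_injOn (fun p => p.2.piecewise (pos f p.1 s) p.1) (fun _ _ => mem_univ _)
    rintro ⟨z, T⟩ hp ⟨z', T'⟩ hp' h
    simp only [coe_product, coe_filter, mem_univ, true_and, Set.mem_prod, Set.mem_ofPred_eq,
      mem_coe, mem_powersetCard] at hp hp'
    obtain ⟨rfl, rfl⟩ := punct_unique hf hp.1 hp'.1 hp.2.1 hp.2.2 hp'.2.1 hp'.2.2 h
    rfl
  rw [card_product] at this
  simp only [card_univ, Fintype.card_pi, Fintype.card_fin, prod_const] at this
  exact_mod_cast this

/-- symmetry of full boxes -/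
lemma full_partner {f : (Fin d → Fin q) → Fin q} (hf : Latin f) {J : Finset (Fin d)}
    {z : Fin d → Fin q} {s : Fin q} (hF : Full f J z s) {i : Fin d} (hi : i ∈ J) :
    Full f J (update z i (pos f z s i)) (f z) := by
  set y := update z i (pos f z s i) with hy
  have hfy : f y = s := pos_spec hf z s i
  have hpi : pos f y (f z) i = z i := pos_eq hf (by simp [hy])
  have hpj : ∀ j ∈ J, j ≠ i → pos f y (f z) j = pos f z s j := by
    intro j hj hji
    apply pos_eq hf
    have := hF {j, i} (by intro k hk; simp only [mem_insert, mem_singleton] at hk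
                          rcases hk with rfl | rfl <;> assumption)
    rw [card_pair hji, piecewise_insert, piecewise_singleton] at this
    simpa using this
  intro T hT
  rw [hfy]
  by_cases hiT : i ∈ T
  · have : T.piecewise (pos f y (f z)) y = (T.erase i).piecewise (pos f z s) z := by
      funext j
      by_cases hj : j = i
      · subst hj; simp [piecewise, hiT, hpi]
      · by_cases hjT : j ∈ T
        · simp [piecewise, hjT, hj, hpj j (hT hjT) hj]
        · simp [piecewise, hjT, hj, hy]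
    rw [this, hF _ ((erase_subset _ _).trans hT), ← card_erase_add_one hiT, alt_succ]
  · have : T.piecewise (pos f y (f z)) y = (insert i T).piecewise (pos f z s) z := by
      funext j
      by_cases hj : j = i
      · subst hj; simp [piecewise, hiT, hy]
      · by_cases hjT : j ∈ T
        · simp [piecewise, hjT, hpj j (hT hjT) hj]
        · simp [piecewise, hjT, hj, hy]
    rw [this, hF _ (insert_subset hi hT), card_insert_of_notMem hiT, alt_succ]

/-- cells with exactly one full box -/
def Uniq (f : (Fin d → Fin q) → Fin q) (J : Finset (Fin d)) (z : Fin d → Fin q) : Prop :=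
  ∃! s, s ≠ f z ∧ Full f J z s

lemma even_of_line_uniq {f : (Fin d → Fin q) → Fin q} (hf : Latin f) {J : Finset (Fin d)}
    {i : Fin d} (hi : i ∈ J) (z : Fin d → Fin q) (h : ∀ a, Uniq f J (update z i a)) : Even q := by
  choose s hs hu using h
  let τ : Fin q → Fin q := fun a => pos f (update z i a) (s a) i
  have h1 : ∀ a, τ a ≠ a := by
    intro a
    have := pos_ne hf (hs a).1 i
    simpa using this
  have h2 : ∀ a, τ (τ a) = a := by
    intro a
    have hF := full_partner hf (hs a).2 hi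
    rw [update_idem] at hF
    have hfa : f (update z i (τ a)) = s a := by
      have := pos_spec hf (update z i a) (s a) i
      rwa [update_idem] at this
    have : f (update z i a) = s (τ a) := hu (τ a) _ ⟨by rw [hfa]; exact (hs a).1.symm, hF⟩
    apply pos_eq hf
    rw [update_idem, this]
  have h3 : ∑ _a : Fin q, (1 : ZMod 2) = 0 :=
    Finset.sum_involution (fun a _ => τ a) (fun _ _ => by decide) (fun a _ _ => h1 a)
      (fun _ _ => mem_univ _) (fun a _ => h2 a)
  simp only [sum_const, card_univ, Fintype.card_fin, nsmul_eq_mul, mul_one] at h3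
  exact (ZMod.natCast_eq_zero_iff_even).1 h3

lemma uniq_count {f : (Fin d → Fin q) → Fin q} (hf : Latin f) {J : Finset (Fin d)}
    (hJ : J.Nonempty) :
    (∑ z, ind (Uniq f J z)) * q ≤ 2 * ((q / 2 : ℕ) : ℝ) * (q : ℝ) ^ d := by
  classical
  have h0 : ∑ z, ind (Uniq f J z) = (q : ℝ) ^ d - ∑ z, ind (¬ Uniq f J z) := by
    rw [eq_sub_iff_add_eq, ← sum_add_distrib]
    have : ∀ z, ind (Uniq f J z) + ind (¬ Uniq f J z) = 1 := by
      intro z; by_cases h : Uniq f J z <;> simp [ind, h]
    simp [this]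
  have hnn : 0 ≤ ∑ z, ind (¬ Uniq f J z) := sum_nonneg fun _ _ => ind_nonneg _
  rcases Nat.even_or_odd' q with ⟨m, hm | hm⟩
  · have : (q / 2 : ℕ) = m := by omega
    rw [this, h0]
    have : (q : ℝ) = 2 * m := by exact_mod_cast hm
    rw [← this]
    linarith only [hnn, Nat.cast_nonneg (α := ℝ) q, mul_nonneg_of_nonpos_of_nonpos (Mathlib.Tactic.Linarith.sub_nonpos_of_le (Mathlib.Tactic.Linarith.natCast_nonneg ℝ q)) (Mathlib.Tactic.Linarith.sub_nonpos_of_le hnn)]
  · have hq2 : (q / 2 : ℕ) = m := by omega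
    have hq : (q : ℝ) = 2 * m + 1 := by exact_mod_cast hm
    obtain ⟨i, hi⟩ := hJ
    have hodd : ¬ Even q := by rw [hm]; simp
    have hex : ∀ z : Fin d → Fin q, ∃ a, ¬ Uniq f J (update z i a) := by
      intro z
      by_contra hc
      push Not at hc
      exact hodd (even_of_line_uniq hf hi z hc)
    choose a ha using hex
    have h1 : ∑ z, ind (¬ Uniq f J z) = ((univ.filter fun z => ¬ Uniq f J z).card : ℝ) := by
      rw [card_filter]
      push_cast
      refine sum_congr rfl fun z _ => ?_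
      unfold ind
      congr
    have h2 : (univ : Finset (Fin d → Fin q)).card
        ≤ ((univ.filter fun z => ¬ Uniq f J z) ×ˢ (univ : Finset (Fin q))).card := by
      apply card_le_card_of_injOn (fun z => (update z i (a z), z i))
      · intro z _
        simp [ha z]
      · intro z _ z' _ h
        simp only [Prod.mk.injEq] at h
        have := congrArg (fun y => update y i (z i)) h.1
        simp only [update_idem, update_eq_self] at this
        rw [this, h.2, update_eq_self]
    rw [card_product] at h2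
    simp only [card_univ, Fintype.card_pi, Fintype.card_fin, prod_const] at h2
    have h3 : (q : ℝ) ^ d ≤ (∑ z, ind (¬ Uniq f J z)) * q := by
      rw [h1]; exact_mod_cast h2
    rw [hq2, h0]
    have : (2 * (m : ℝ)) = q - 1 := by linarith only [hq]
    rw [this]
    linarith only [h3]

end Pool.Agent.Work.MP_85f59e_co
end

-- merged part: Pool.Agent.Work.MP_85f59e_co.Prob
section
namespace Pool.Agent.Work.MP_85f59e_co

open Finset Function
open scoped BigOperators

variable {d q : ℕ}

open Classical in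
/-- directions of `J` in which the symbol `s` has already appeared on the line through `z` -/
noncomputable def Jp (π : Fin d → Equiv.Perm (Fin q)) (g : (Fin d → Fin q) → Fin q)
    (J : Finset (Fin d)) (z : Fin d → Fin q) (s : Fin q) : Finset (Fin d) :=
  J.filter fun i => ∃ a, π i a < π i (z i) ∧ g (update z i a) = s

/-- evidence, among the preceding cells, for the value `u` at `z` -/
def Ev (π : Fin d → Equiv.Perm (Fin q)) (J : Finset (Fin d)) (r : ℕ)
    (g : (Fin d → Fin q) → Fin q) (z : Fin d → Fin q) (u : Fin q) : Prop :=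
  ∃ s, s ≠ u ∧ r ≤ (Jp π g J z s).card ∧ ∃ b : Fin d → Fin q,
    (∀ i ∈ Jp π g J z s, π i (b i) < π i (z i)) ∧
    ∀ T ⊆ Jp π g J z s, T.Nonempty → g (T.piecewise b z) = alt u s T.card

lemma Jp_congr {π : Fin d → Equiv.Perm (Fin q)} {g g' : (Fin d → Fin q) → Fin q}
    {z : Fin d → Fin q} (h : ∀ y, key π y < key π z → g y = g' y) (J : Finset (Fin d))
    (s : Fin q) : Jp π g J z s = Jp π g' J z s := by
  unfold Jp
  ext i
  simp only [mem_filter, and_congr_right_iff]
  intro _
  constructor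
  · rintro ⟨a, h1, h2⟩; exact ⟨a, h1, by rw [← h _ (key_update_lt h1), h2]⟩
  · rintro ⟨a, h1, h2⟩; exact ⟨a, h1, by rw [h _ (key_update_lt h1), h2]⟩

lemma Ev_of_agree {π : Fin d → Equiv.Perm (Fin q)} {g g' : (Fin d → Fin q) → Fin q}
    {z : Fin d → Fin q} (h : ∀ y, key π y < key π z → g y = g' y) {J : Finset (Fin d)} {r : ℕ}
    {u : Fin q} (hE : Ev π J r g z u) : Ev π J r g' z u := by
  obtain ⟨s, h1, h2, b, h3, h4⟩ := hE
  rw [Jp_congr h] at h2 h3 h4
  refine ⟨s, h1, h2, b, h3, fun T hT hne => ?_⟩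
  rw [← h _ (key_piecewise_lt hne fun i hi => h3 i (hT hi))]
  exact h4 T hT hne

lemma Avail_of_agree {π : Fin d → Equiv.Perm (Fin q)} {g g' : (Fin d → Fin q) → Fin q}
    {z : Fin d → Fin q} (h : ∀ y, key π y < key π z → g y = g' y) {u : Fin q}
    (hA : Avail π g z u) : Avail π g' z u := by
  obtain ⟨f, h1, h2, h3⟩ := hA
  exact ⟨f, h1, fun y hy => by rw [h2 y hy, h y hy], h3⟩

lemma mem_Jp {π : Fin d → Equiv.Perm (Fin q)} {f : (Fin d → Fin q) → Fin q} (hf : Latin f)
    {J : Finset (Fin d)} {z : Fin d → Fin q} {s : Fin q} {i : Fin d} :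
    i ∈ Jp π f J z s ↔ i ∈ J ∧ π i (pos f z s i) < π i (z i) := by
  unfold Jp
  simp only [mem_filter, and_congr_right_iff]
  intro _
  constructor
  · rintro ⟨a, h1, h2⟩; rwa [pos_eq hf h2]
  · intro h; exact ⟨_, h, pos_spec hf _ _ _⟩

lemma Jp_subset {π : Fin d → Equiv.Perm (Fin q)} {f : (Fin d → Fin q) → Fin q}
    {J : Finset (Fin d)} {z : Fin d → Fin q} {s : Fin q} : Jp π f J z s ⊆ J := by
  unfold Jp; exact filter_subset _ _

lemma ev_of_full {π : Fin d → Equiv.Perm (Fin q)} {f : (Fin d → Fin q) → Fin q} (hf : Latin f)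
    {J : Finset (Fin d)} {z : Fin d → Fin q} {s : Fin q} (hs : s ≠ f z) (hF : Full f J z s)
    {r : ℕ} (hr : r ≤ (Jp π f J z s).card) : Ev π J r f z (f z) :=
  ⟨s, hs, hr, pos f z s, fun _ hi => ((mem_Jp hf).1 hi).2,
    fun T hT _ => hF T (hT.trans Jp_subset)⟩

lemma punct_of_ev {π : Fin d → Equiv.Perm (Fin q)} {f : (Fin d → Fin q) → Fin q} (hf : Latin f)
    {J : Finset (Fin d)} {z : Fin d → Fin q} {u : Fin q} (hu : u ≠ f z) {r : ℕ} (hr : 1 ≤ r)
    (hE : Ev π J r f z u) : ∃ s, r ≤ (Jp π f J z s).card ∧ Punct f (Jp π f J z s) z u s := by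
  obtain ⟨s, h1, h2, b, h3, h4⟩ := hE
  refine ⟨s, h2, hu.symm, ?_, h1.symm, fun T hT hne => ?_⟩
  · obtain ⟨i, hi⟩ : (Jp π f J z s).Nonempty := card_pos.1 (by omega)
    have := ((mem_Jp hf).1 hi).2
    intro hz
    rw [pos_eq hf (a := z i) (by simpa using hz)] at this
    exact lt_irrefl _ this
  · rw [← h4 T hT hne]
    congr 1
    refine piecewise_congr _ (fun i hi => ?_) (fun _ _ => rfl)
    apply pos_eq hf
    have := h4 {i} (singleton_subset_iff.2 (hT hi)) (singleton_nonempty _)
    rw [piecewise_singleton] at this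
    simpa using this

lemma ind_avail_le {π : Fin d → Equiv.Perm (Fin q)} {f : (Fin d → Fin q) → Fin q} (hf : Latin f)
    {z : Fin d → Fin q} {s : Fin q} (hs : s ≠ f z) :
    ind (Avail π f z s) ≤ ∏ i, ind (π i (z i) < π i (pos f z s i)) := by
  by_cases h : Avail π f z s
  · rw [ind_of h, prod_congr rfl fun i _ => ind_of (avail_lt hf hs h i)]; simp
  · rw [ind_of_not h]; exact prod_nonneg fun _ _ => ind_nonneg _

lemma P1 {f : (Fin d → Fin q) → Fin q} (hf : Latin f) {z : Fin d → Fin q} {s : Fin q}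
    (hs : s ≠ f z) : 𝔼 π, ind (Avail π f z s) ≤ (1 / 2) ^ d := by
  calc _ ≤ 𝔼 π : Fin d → Equiv.Perm (Fin q), ∏ i, ind (π i (z i) < π i (pos f z s i)) :=
        expect_le_expect fun π _ => ind_avail_le hf hs
    _ = ∏ i, 𝔼 σ : Equiv.Perm (Fin q), ind (σ (z i) < σ (pos f z s i)) :=
        expect_pi_prod (fun i (σ : Equiv.Perm (Fin q)) => ind (σ (z i) < σ (pos f z s i)))
    _ = (1 / 2) ^ d := by
        rw [prod_congr rfl fun i _ => expect_lt2 (pos_ne hf hs i).symm]; simp

lemma P2 {β : Type*} [DecidableEq β] {f : (Fin d → Fin q) → Fin q} (hf : Latin f)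
    {z : Fin d → Fin q} {s : Fin q} (hs : s ≠ f z) (B : Finset β) (J : β → Finset (Fin d))
    (hJ : (B : Set β).PairwiseDisjoint J) {w : ℕ} (hw : ∀ b, (J b).card = w)
    (hB : ∀ b ∈ B, ¬ Full f (J b) z s) :
    𝔼 π, ind (Avail π f z s) ≤ (1 / 2) ^ d * (1 - (2 / (q.factorial : ℝ)) ^ w) ^ B.card := by
  let e : Fin d → Equiv.Perm (Fin q) → ℝ := fun i σ => ind (σ (z i) < σ (pos f z s i))
  let F : Fin d → Equiv.Perm (Fin q) → ℝ :=
    fun i σ => ind (∀ c, c ≠ z i → c ≠ pos f z s i → σ c < σ (z i))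
  have he : ∀ i, 𝔼 σ, e i σ = 1 / 2 := fun i => expect_lt2 (pos_ne hf hs i).symm
  have h1 : ∀ π : Fin d → Equiv.Perm (Fin q), ind (Avail π f z s)
      ≤ (∏ i, e i (π i)) * ∏ b ∈ B, (1 - ∏ i ∈ J b, F i (π i)) := by
    intro π
    by_cases h : Avail π f z s
    · rw [ind_of h, prod_congr rfl fun i _ => ind_of (avail_lt hf hs h i)]
      have : ∀ b ∈ B, (1 - ∏ i ∈ J b, F i (π i)) = 1 := by
        intro b hb
        have : ∃ i ∈ J b, ¬ ∀ c, c ≠ z i → c ≠ pos f z s i → π i c < π i (z i) := by
          by_contra hc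
          push Not at hc
          exact hB b hb (avail_full hf hs h _ hc)
        obtain ⟨i, hi, hn⟩ := this
        rw [prod_eq_zero hi (ind_of_not hn), sub_zero]
      rw [prod_congr rfl this]; simp
    · rw [ind_of_not h]
      refine mul_nonneg (prod_nonneg fun _ _ => ind_nonneg _) (prod_nonneg fun b _ => ?_)
      exact sub_nonneg.2 (prod_le_one (fun _ _ => ind_nonneg _) fun _ _ => ind_le_one _)
  refine (expect_le_expect fun π _ => h1 π).trans ?_
  rw [expect_blocks e F (1 / 2) (by norm_num) he B J hJ, Fintype.card_fin]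
  gcongr
  rw [← prod_const]
  have hp : ∀ i, 2 / (q.factorial : ℝ) ≤ (𝔼 σ, e i σ * F i σ) / (1 / 2) := by
    intro i
    have := expect_last (pos_ne hf hs i).symm
    rw [le_div_iff₀ (by norm_num)]
    calc 2 / (q.factorial : ℝ) * (1 / 2) = 1 / (q.factorial : ℝ) := by ring
      _ ≤ _ := this
  have hp' : ∀ i, (𝔼 σ, e i σ * F i σ) / (1 / 2) ≤ 1 := by
    intro i
    rw [div_le_one (by norm_num), ← he i]
    exact expect_le_expect fun σ _ => mul_le_of_le_one_right (ind_nonneg _) (ind_le_one _)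
  have h0 : (0 : ℝ) ≤ 2 / (q.factorial : ℝ) := by positivity
  refine prod_le_prod (fun b _ => ?_) (fun b _ => ?_)
  · exact sub_nonneg.2 (prod_le_one (fun i _ => h0.trans (hp i)) fun i _ => hp' i)
  · rw [← hw b, ← prod_const]
    exact sub_le_sub_left (prod_le_prod (fun _ _ => h0) fun i _ => hp i) _

lemma P3 {f : (Fin d → Fin q) → Fin q} (hf : Latin f) {z : Fin d → Fin q} {s s' : Fin q}
    (hs : s ≠ f z) (hs' : s' ≠ f z) (hss : s' ≠ s) {J : Finset (Fin d)} (hF : Full f J z s')
    (r : ℕ) :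
    𝔼 π, ind (Avail π f z s) * ind (¬ Ev π J r f z (f z))
      ≤ (1 / 2) ^ d * (2 ^ r * (5 / 6) ^ J.card) := by
  let ψ : Fin d → Equiv.Perm (Fin q) → ℝ := fun i σ => ind (σ (z i) < σ (pos f z s i)) *
    if i ∈ J then 1 - ind (σ (pos f z s' i) < σ (z i)) / 2 else 1
  have h1 : ∀ π : Fin d → Equiv.Perm (Fin q), ind (Avail π f z s) * ind (¬ Ev π J r f z (f z))
      ≤ 2 ^ r * ∏ i, ψ i (π i) := by
    intro π
    have hnn : 0 ≤ ∏ i, ψ i (π i) := by
      refine prod_nonneg fun i _ => mul_nonneg (ind_nonneg _) ?_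
      split_ifs
      · linarith only [ind_le_one (π i (pos f z s' i) < π i (z i))]
      · norm_num
    by_cases hA : Avail π f z s
    swap
    · rw [ind_of_not hA, zero_mul]; positivity
    by_cases hE : Ev π J r f z (f z)
    · rw [ind_of_not (not_not.2 hE), mul_zero]; positivity
    have hr : (Jp π f J z s').card ≤ r := by
      by_contra hc
      exact hE (ev_of_full hf hs' hF (by omega))
    have : ∀ i, ψ i (π i) = if i ∈ Jp π f J z s' then 1 / 2 else 1 := by
      intro i
      simp only [ψ, ind_of (avail_lt hf hs hA i), one_mul, mem_Jp hf]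
      by_cases a1 : i ∈ J <;> by_cases a2 : π i (pos f z s' i) < π i (z i) <;>
        simp [a1, a2, ind]
      norm_num
    rw [ind_of hA, ind_of hE, prod_congr rfl fun i _ => this i, prod_ite_mem, univ_inter,
      prod_const, one_mul]
    calc (1 : ℝ) = 2 ^ r * (1 / 2) ^ r := by rw [← mul_pow]; norm_num
      _ ≤ 2 ^ r * (1 / 2) ^ (Jp π f J z s').card := by
        gcongr 2 ^ r * ?_
        exact pow_le_pow_of_le_one (by norm_num) (by norm_num) hr
  refine (expect_le_expect fun π _ => h1 π).trans (le_of_eq ?_)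
  rw [← mul_expect, expect_pi_prod ψ]
  have h2 : ∀ i, 𝔼 σ, ψ i σ = 1 / 2 * if i ∈ J then 5 / 6 else 1 := by
    intro i
    simp only [ψ]
    split_ifs
    · have a1 := expect_lt2 (pos_ne hf hs i).symm
      have a2 := expect_lt3 (pos_ne hf hs' i) (pos_ne_pos hf hss i) (pos_ne hf hs i).symm
      have : ∀ σ : Equiv.Perm (Fin q), ind (σ (z i) < σ (pos f z s i)) *
          (1 - ind (σ (pos f z s' i) < σ (z i)) / 2) = ind (σ (z i) < σ (pos f z s i))
          - (1 / 2) * (ind (σ (z i) < σ (pos f z s i)) * ind (σ (pos f z s' i) < σ (z i))) :=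
        fun σ => by ring
      simp_rw [this]
      rw [expect_sub_distrib, ← mul_expect, a1, a2]
      norm_num
    · simp only [mul_one]
      exact expect_lt2 (pos_ne hf hs i).symm
  rw [prod_congr rfl fun i _ => h2 i, prod_mul_distrib, prod_ite_mem, univ_inter, prod_const,
    prod_const, card_univ, Fintype.card_fin]
  ring

lemma P4_aux {f : (Fin d → Fin q) → Fin q} (hf : Latin f) {z : Fin d → Fin q} {u : Fin q}
    (hu : u ≠ f z) (J : Finset (Fin d)) {r : ℕ} (hr : 1 ≤ r) :
    𝔼 π, ind (Avail π f z u) * ind (Ev π J r f z u)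
      ≤ ∑ s, ∑ J0 ∈ J.powerset, ind (r ≤ J0.card) * ind (Punct f J0 z u s) *
        ((1 / 2) ^ d * ((1 / 3) ^ J0.card * (2 / 3) ^ (J.card - J0.card))) := by
  let ψ : Fin q → Finset (Fin d) → Fin d → Equiv.Perm (Fin q) → ℝ := fun s J0 i σ =>
    ind (σ (z i) < σ (pos f z u i)) *
    if i ∈ J0 then ind (σ (pos f z s i) < σ (z i))
    else if i ∈ J then 1 - ind (σ (pos f z s i) < σ (z i)) else 1
  have hψ : ∀ s J0 i σ, 0 ≤ ψ s J0 i σ := by
    intro s J0 i σ
    refine mul_nonneg (ind_nonneg _) ?_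
    split_ifs
    · exact ind_nonneg _
    · exact sub_nonneg.2 (ind_le_one _)
    · norm_num
  have hnn : ∀ (π : Fin d → Equiv.Perm (Fin q)) s (J0 : Finset (Fin d)),
      0 ≤ ind (r ≤ J0.card) * ind (Punct f J0 z u s) * ∏ i, ψ s J0 i (π i) :=
    fun π s J0 => mul_nonneg (mul_nonneg (ind_nonneg _) (ind_nonneg _))
      (prod_nonneg fun i _ => hψ _ _ _ _)
  have h1 : ∀ π : Fin d → Equiv.Perm (Fin q), ind (Avail π f z u) * ind (Ev π J r f z u)
      ≤ ∑ s, ∑ J0 ∈ J.powerset, ind (r ≤ J0.card) * ind (Punct f J0 z u s) *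
        ∏ i, ψ s J0 i (π i) := by
    intro π
    by_cases hA : Avail π f z u
    swap
    · rw [ind_of_not hA, zero_mul]
      exact sum_nonneg fun s _ => sum_nonneg fun J0 _ => hnn π s J0
    by_cases hE : Ev π J r f z u
    swap
    · rw [ind_of_not hE, mul_zero]
      exact sum_nonneg fun s _ => sum_nonneg fun J0 _ => hnn π s J0
    obtain ⟨s, h2, h3⟩ := punct_of_ev hf hu hr hE
    have : ∀ i, ψ s (Jp π f J z s) i (π i) = 1 := by
      intro i
      simp only [ψ, ind_of (avail_lt hf hu hA i), one_mul, mem_Jp hf]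
      by_cases a1 : i ∈ J <;> by_cases a2 : π i (pos f z s i) < π i (z i) <;>
        simp [a1, a2, ind]
    calc ind (Avail π f z u) * ind (Ev π J r f z u)
        = ind (r ≤ (Jp π f J z s).card) * ind (Punct f (Jp π f J z s) z u s) *
          ∏ i, ψ s (Jp π f J z s) i (π i) := by
          rw [ind_of hA, ind_of hE, ind_of h2, ind_of h3, prod_congr rfl fun i _ => this i]; simp
      _ ≤ ∑ J0 ∈ J.powerset, ind (r ≤ J0.card) * ind (Punct f J0 z u s) * ∏ i, ψ s J0 i (π i) :=
          single_le_sum (f := fun J0 : Finset (Fin d) =>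
            ind (r ≤ J0.card) * ind (Punct f J0 z u s) * ∏ i, ψ s J0 i (π i))
            (fun J0 _ => hnn π s J0) (mem_powerset.2 Jp_subset)
      _ ≤ _ := single_le_sum (f := fun s => ∑ J0 ∈ J.powerset,
            ind (r ≤ J0.card) * ind (Punct f J0 z u s) * ∏ i, ψ s J0 i (π i))
            (fun s _ => sum_nonneg fun J0 _ => hnn π s J0) (mem_univ s)
  refine (expect_le_expect fun π _ => h1 π).trans (le_of_eq ?_)
  rw [expect_sum_comm]
  refine sum_congr rfl fun s _ => ?_
  rw [expect_sum_comm]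
  refine sum_congr rfl fun J0 hJ0 => ?_
  rw [← mul_expect, expect_pi_prod (ψ s J0)]
  by_cases hP : Punct f J0 z u s
  swap
  · rw [ind_of_not hP]; simp
  congr 1
  have hsub : J0 ⊆ J := mem_powerset.1 hJ0
  have h2 : ∀ i, 𝔼 σ, ψ s J0 i σ
      = 1 / 2 * ((if i ∈ J0 then 1 / 3 else 1) * if i ∈ J \ J0 then 2 / 3 else 1) := by
    intro i
    have a1 := expect_lt2 (pos_ne hf hu i).symm
    have a2 := expect_lt3 (pos_ne hf hP.2.1.symm i) (pos_ne_pos hf hP.2.2.1.symm i)
      (pos_ne hf hu i).symm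
    simp only [ψ, mem_sdiff]
    by_cases b1 : i ∈ J0
    · simp only [b1, if_true, not_true, and_false, if_false]
      rw [a2]; norm_num
    · by_cases b2 : i ∈ J
      · simp only [b1, b2, if_true, if_false, not_false_iff, and_true, mul_sub, mul_one]
        rw [expect_sub_distrib, a1, a2]; norm_num
      · simp only [b1, b2, if_false, false_and, mul_one]
        exact a1
  rw [prod_congr rfl fun i _ => h2 i, prod_mul_distrib, prod_mul_distrib, prod_ite_mem,
    prod_ite_mem, univ_inter, univ_inter, prod_const, prod_const, prod_const, card_univ,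
    Fintype.card_fin, card_sdiff_of_subset hsub]

lemma P4 {f : (Fin d → Fin q) → Fin q} (hf : Latin f) (J : Finset (Fin d)) {r : ℕ} (hr : 2 ≤ r) :
    ∑ z, ∑ u ∈ univ.erase (f z), 𝔼 π, ind (Avail π f z u) * ind (Ev π J r f z u)
      ≤ (1 / 2) ^ d * (q : ℝ) ^ d * ((q : ℝ) ^ 2 / (r.choose 2 : ℝ)) := by
  have hc : (0 : ℝ) < (r.choose 2 : ℝ) := by exact_mod_cast Nat.choose_pos hr
  let c : Finset (Fin d) → ℝ := fun J0 =>
    (1 / 2) ^ d * ((1 / 3) ^ J0.card * (2 / 3) ^ (J.card - J0.card))
  have hcn : ∀ J0, 0 ≤ c J0 := fun J0 => by positivity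
  calc _ ≤ ∑ z, ∑ u ∈ univ.erase (f z), ∑ s, ∑ J0 ∈ J.powerset,
          ind (r ≤ J0.card) * ind (Punct f J0 z u s) * c J0 :=
        sum_le_sum fun z _ => sum_le_sum fun u hu =>
          P4_aux hf (ne_of_mem_erase hu) J (by omega)
    _ ≤ ∑ z, ∑ u, ∑ s, ∑ J0 ∈ J.powerset, ind (r ≤ J0.card) * ind (Punct f J0 z u s) * c J0 :=
        sum_le_sum fun z _ => sum_le_sum_of_subset_of_nonneg (subset_univ _) fun u _ _ =>
          sum_nonneg fun s _ => sum_nonneg fun J0 _ =>
            mul_nonneg (mul_nonneg (ind_nonneg _) (ind_nonneg _)) (hcn _)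
    _ = ∑ u, ∑ s, ∑ J0 ∈ J.powerset, ind (r ≤ J0.card) * (∑ z, ind (Punct f J0 z u s)) * c J0 := by
        rw [sum_comm]
        refine sum_congr rfl fun u _ => ?_
        rw [sum_comm]
        refine sum_congr rfl fun s _ => ?_
        rw [sum_comm]
        refine sum_congr rfl fun J0 _ => ?_
        rw [mul_sum, sum_mul]
    _ ≤ ∑ _u : Fin q, ∑ _s : Fin q, ∑ J0 ∈ J.powerset, (q : ℝ) ^ d / (r.choose 2 : ℝ) * c J0 := by
        refine sum_le_sum fun u _ => sum_le_sum fun s _ => sum_le_sum fun J0 _ => ?_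
        refine mul_le_mul_of_nonneg_right ?_ (hcn _)
        by_cases h : r ≤ J0.card
        · rw [ind_of h, one_mul, le_div_iff₀ hc]
          refine le_trans ?_ (punct_count hf J0 u s)
          refine mul_le_mul_of_nonneg_left ?_ (sum_nonneg fun _ _ => ind_nonneg _)
          exact_mod_cast Nat.choose_le_choose 2 h
        · rw [ind_of_not h, zero_mul]; positivity
    _ = _ := by
        have : ∑ J0 ∈ J.powerset, (q : ℝ) ^ d / (r.choose 2 : ℝ) * c J0
            = (q : ℝ) ^ d / (r.choose 2 : ℝ) * (1 / 2) ^ d := by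
          simp only [c]
          rw [← mul_sum, ← mul_sum, sum_pow_mul_eq_add_pow]
          norm_num
        rw [this]
        simp only [sum_const, card_univ, Fintype.card_fin, nsmul_eq_mul]
        ring

end Pool.Agent.Work.MP_85f59e_co
end

-- merged part: Pool.Agent.Work.MP_85f59e_co.Main
section
namespace Pool.Agent.Work.MP_85f59e_co

open Finset Function
open scoped BigOperators

variable {d q : ℕ}

lemma one_add_sum_le_exp {ι : Type*} (s : Finset ι) (x c : ι → ℝ) (hx : ∀ i ∈ s, 0 ≤ x i)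
    (hc : ∀ i ∈ s, 1 + x i ≤ Real.exp (c i)) : 1 + ∑ i ∈ s, x i ≤ Real.exp (∑ i ∈ s, c i) := by
  classical
  induction s using Finset.induction_on with
  | empty => simp
  | insert a s ha ih =>
    rw [sum_insert ha, sum_insert ha, Real.exp_add]
    have h1 := ih (fun i hi => hx i (mem_insert_of_mem hi)) fun i hi => hc i (mem_insert_of_mem hi)
    have h2 := hc a (mem_insert_self _ _)
    have h3 := hx a (mem_insert_self _ _)
    have h4 : 0 ≤ ∑ i ∈ s, x i := sum_nonneg fun i hi => hx i (mem_insert_of_mem hi)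
    calc 1 + (x a + ∑ i ∈ s, x i) ≤ (1 + x a) * (1 + ∑ i ∈ s, x i) := by linarith only [h3, h4, mul_nonneg_of_nonpos_of_nonpos (Mathlib.Tactic.Linarith.sub_nonpos_of_le h3) (Mathlib.Tactic.Linarith.sub_nonpos_of_le h4)]
      _ ≤ _ := by gcongr

lemma predictor_bound {Ω : Type*} [Fintype Ω] [Nonempty Ω] (hq : 0 < q)
    (π : Ω → Fin d → Equiv.Perm (Fin q))
    (v c : Ω → ((Fin d → Fin q) → Fin q) → (Fin d → Fin q) → Fin q → ℝ)
    (hv : ∀ ω g z u, 0 < v ω g z u)
    (hdep : ∀ ω g g' z, (∀ y, key (π ω) y < key (π ω) z → g y = g' y) → v ω g z = v ω g' z)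
    (hc : ∀ ω f z s, Latin f → s ≠ f z →
      1 + ind (Avail (π ω) f z s) * v ω f z s / v ω f z (f z) ≤ Real.exp (c ω f z s))
    (M : ℝ) (hM : ∀ f, Latin f → ∑ z, ∑ s ∈ univ.erase (f z), 𝔼 ω, c ω f z s ≤ M) :
    ((latinSet d q).card : ℝ) ≤ Real.exp M := by
  have : Nonempty (Fin q) := ⟨⟨0, hq⟩⟩
  refine card_le_exp (fun ω => key (π ω))
    (fun ω g z u => ind (Avail (π ω) g z u) * v ω g z u / ∑ u', ind (Avail (π ω) g z u') * v ω g z u')
    ?_ ?_ ?_ (latinSet d q) (fun ω f => ∑ z, ∑ s ∈ univ.erase (f z), c ω f z s) M ?_ ?_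
  · intro ω g z u
    exact div_nonneg (mul_nonneg (ind_nonneg _) (hv _ _ _ _).le)
      (sum_nonneg fun _ _ => mul_nonneg (ind_nonneg _) (hv _ _ _ _).le)
  · intro ω g z
    rw [← sum_div]
    exact div_self_le_one _
  · intro ω g g' z h
    have hA : ∀ u, ind (Avail (π ω) g z u) = ind (Avail (π ω) g' z u) := fun u =>
      ind_congr ⟨Avail_of_agree h, Avail_of_agree fun y hy => (h y hy).symm⟩
    funext u
    simp only [hA, hdep ω g g' z h]
  · intro ω f hf
    have hf' := mem_latinSet.1 hf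
    rw [← sum_neg_distrib, Real.exp_sum]
    refine prod_le_prod (fun _ _ => (Real.exp_pos _).le) fun z _ => ?_
    have hA : Avail (π ω) f z (f z) := ⟨f, hf', fun _ _ => rfl, rfl⟩
    have h1 := one_add_sum_le_exp (univ.erase (f z))
      (fun s => ind (Avail (π ω) f z s) * v ω f z s / v ω f z (f z)) (fun s => c ω f z s)
      (fun s _ => div_nonneg (mul_nonneg (ind_nonneg _) (hv _ _ _ _).le) (hv _ _ _ _).le)
      (fun s hs => hc ω f z s hf' (ne_of_mem_erase hs))
    have hvt := hv ω f z (f z)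
    have hS : 0 ≤ ∑ s ∈ univ.erase (f z), ind (Avail (π ω) f z s) * v ω f z s :=
      sum_nonneg fun _ _ => mul_nonneg (ind_nonneg _) (hv _ _ _ _).le
    rw [← add_sum_erase _ _ (mem_univ (f z)), ind_of hA, one_mul, Real.exp_neg,
      le_div_iff₀ (by positivity), inv_mul_le_iff₀ (Real.exp_pos _)]
    rw [← sum_div] at h1
    calc _ = (1 + (∑ s ∈ univ.erase (f z), ind (Avail (π ω) f z s) * v ω f z s) / v ω f z (f z))
          * v ω f z (f z) := by field_simp
      _ ≤ _ := by gcongr
  · intro f hf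
    rw [expect_sum_comm]
    simp_rw [expect_sum_comm]
    exact hM f (mem_latinSet.1 hf)

/-- the explicit bound -/
lemma explicit_bound (hq : 0 < q) :
    ((latinSet d q).card : ℝ) ≤ Real.exp (Real.log 2 * (((q : ℝ) - 1) * ((q : ℝ) / 2) ^ d)) := by
  refine predictor_bound hq (Ω := Fin d → Equiv.Perm (Fin q)) id (fun _ _ _ _ => 1)
    (fun ω f z s => Real.log 2 * ind (Avail ω f z s)) (fun _ _ _ _ => one_pos)
    (fun _ _ _ _ _ => rfl) ?_ _ ?_
  · intro ω f z s _ _
    by_cases h : Avail ω f z s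
    · simp only [id, ind_of h, mul_one, Real.exp_log two_pos]; norm_num
    · simp [ind_of_not h]
  · intro f hf
    have hl : 0 ≤ Real.log 2 := Real.log_nonneg one_le_two
    calc _ ≤ ∑ z, ∑ _s ∈ univ.erase (f z), Real.log 2 * (1 / 2) ^ d := by
          refine sum_le_sum fun z _ => sum_le_sum fun s hs => ?_
          rw [← mul_expect]
          exact mul_le_mul_of_nonneg_left (P1 hf (ne_of_mem_erase hs)) hl
      _ = _ := by
          simp only [sum_const, card_erase_of_mem (mem_univ _), card_univ, Fintype.card_fin,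
            nsmul_eq_mul, Fintype.card_pi, prod_const]
          rw [Nat.cast_sub hq]
          push_cast
          rw [div_pow, div_pow]
          ring

/-- the third cost term, averaged over windows -/
lemma third_term {β : Type*} [Fintype β] [Nonempty β] {f : (Fin d → Fin q) → Fin q}
    (hf : Latin f) {z : Fin d → Fin q} {s : Fin q} (hs : s ≠ f z) (J : β → Finset (Fin d))
    (hJ : (Set.univ : Set β).PairwiseDisjoint J) {w : ℕ} (hw : ∀ b, (J b).card = w) (r m : ℕ) :
    𝔼 b, 𝔼 π, ind (Avail π f z s) * ind (¬ Ev π (J b) r f z (f z))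
      ≤ (1 / 2) ^ d * ((1 - (2 / (q.factorial : ℝ)) ^ w) ^ m + m / Fintype.card β
        + 2 ^ r * (5 / 6) ^ w
        + 𝔼 b, ind (Full f (J b) z s ∧ ∀ s', s' ≠ f z → Full f (J b) z s' → s' = s)) := by
  classical
  have hq : 2 ≤ q := by
    have := s.2; have := (f z).2
    have : s.1 ≠ (f z).1 := fun e => hs (Fin.ext e)
    omega
  have hp1 : (2 / (q.factorial : ℝ)) ^ w ≤ 1 := by
    apply pow_le_one₀ (by positivity)
    rw [div_le_one (by positivity)]
    exact_mod_cast (Nat.factorial_le hq)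
  have hp0 : (0 : ℝ) ≤ (2 / (q.factorial : ℝ)) ^ w := by positivity
  have a1 : (0 : ℝ) ≤ (1 - (2 / (q.factorial : ℝ)) ^ w) ^ m := pow_nonneg (by linarith only [hp1]) _
  have a2 : (0 : ℝ) ≤ m / Fintype.card β := by positivity
  have a3 : (0 : ℝ) ≤ 2 ^ r * (5 / 6) ^ w := by positivity
  have a4 : 0 ≤ 𝔼 b, ind (Full f (J b) z s ∧ ∀ s', s' ≠ f z → Full f (J b) z s' → s' = s) :=
    expect_nonneg fun _ _ => ind_nonneg _
  have hle : ∀ b, 𝔼 π, ind (Avail π f z s) * ind (¬ Ev π (J b) r f z (f z))
      ≤ 𝔼 π, ind (Avail π f z s) := fun b =>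
    expect_le_expect fun π _ => mul_le_of_le_one_right (ind_nonneg _) (ind_le_one _)
  let B : Finset β := univ.filter fun b => ¬ Full f (J b) z s
  by_cases hB : m ≤ B.card
  · refine expect_le univ_nonempty fun b _ => (hle b).trans ?_
    refine (P2 hf hs B J (hJ.subset (Set.subset_univ _)) hw fun b hb => (mem_filter.1 hb).2).trans ?_
    gcongr
    have : (1 - (2 / (q.factorial : ℝ)) ^ w) ^ B.card ≤ (1 - (2 / (q.factorial : ℝ)) ^ w) ^ m :=
      pow_le_pow_of_le_one (by linarith only [hp1]) (by linarith only [hp0]) hB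
    linarith only [a2, a3, a4, this]
  · have h1 : ∀ b, 𝔼 π, ind (Avail π f z s) * ind (¬ Ev π (J b) r f z (f z))
        ≤ (1 / 2) ^ d * (ind (b ∈ B) + 2 ^ r * (5 / 6) ^ w
          + ind (Full f (J b) z s ∧ ∀ s', s' ≠ f z → Full f (J b) z s' → s' = s)) := by
      intro b
      have n1 := ind_nonneg (b ∈ B)
      have n2 := ind_nonneg (Full f (J b) z s ∧ ∀ s', s' ≠ f z → Full f (J b) z s' → s' = s)
      by_cases c1 : b ∈ B
      · refine ((hle b).trans (P1 hf hs)).trans ?_
        rw [ind_of c1]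
        exact le_mul_of_one_le_right (by positivity) (by linarith only [a3, n2])
      by_cases c2 : Full f (J b) z s ∧ ∀ s', s' ≠ f z → Full f (J b) z s' → s' = s
      · refine ((hle b).trans (P1 hf hs)).trans ?_
        rw [ind_of c2]
        exact le_mul_of_one_le_right (by positivity) (by linarith only [a3, n1])
      have c3 : Full f (J b) z s := by simpa [B] using c1
      obtain ⟨s', e1, e2, e3⟩ : ∃ s', s' ≠ f z ∧ Full f (J b) z s' ∧ s' ≠ s := by
        by_contra hc
        push Not at hc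
        exact c2 ⟨c3, hc⟩
      refine (P3 hf hs e1 e3 e2 r).trans ?_
      rw [hw b]
      gcongr
      linarith only [n1, n2]
    refine (expect_le_expect fun b _ => h1 b).trans ?_
    rw [← mul_expect, expect_add_distrib, expect_add_distrib, Fintype.expect_const]
    gcongr
    have : 𝔼 b, ind (b ∈ B) ≤ m / Fintype.card β := by
      rw [Fintype.expect_eq_sum_div_card]
      gcongr
      have : ∑ b, ind (b ∈ B) = (B.card : ℝ) := by
        have : ∀ b, ind (b ∈ B) = if b ∈ B then 1 else 0 := by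
          intro b; by_cases h : b ∈ B
          · rw [ind_of h, if_pos h]
          · rw [ind_of_not h, if_neg h]
        simp_rw [this]
        simp
      rw [this]
      exact_mod_cast (not_le.1 hB).le
    linarith only [a1, this]

lemma sum_unique_le {f : (Fin d → Fin q) → Fin q} (J : Finset (Fin d)) (z : Fin d → Fin q) :
    ∑ s ∈ univ.erase (f z), ind (Full f J z s ∧ ∀ s', s' ≠ f z → Full f J z s' → s' = s)
      ≤ ind (Uniq f J z) := by
  by_cases h : ∃ s ∈ univ.erase (f z), Full f J z s ∧ ∀ s', s' ≠ f z → Full f J z s' → s' = s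
  · obtain ⟨s, hs, h1, h2⟩ := h
    have hU : Uniq f J z := ⟨s, ⟨ne_of_mem_erase hs, h1⟩, fun s' h' => h2 s' h'.1 h'.2⟩
    rw [ind_of hU, sum_eq_single_of_mem s hs]
    · exact ind_le_one _
    · intro s' hs' hne
      exact ind_of_not fun h' => hne (h2 s' (ne_of_mem_erase hs') h'.1)
  · push Not at h
    rw [sum_eq_zero]
    · exact ind_nonneg _
    · intro s hs
      refine ind_of_not fun h' => ?_
      obtain ⟨s', a1, a2, a3⟩ := h s hs h'.1
      exact a3 (h'.2 s' a1 a2)

lemma main_bound {β : Type*} [Fintype β] [Nonempty β] (hq : 2 ≤ q) (J : β → Finset (Fin d))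
    (hJ : (Set.univ : Set β).PairwiseDisjoint J) {w : ℕ} (hw : ∀ b, (J b).card = w) (hw1 : 1 ≤ w)
    {r : ℕ} (hr : 2 ≤ r) (m : ℕ) {K : ℝ} (hK : 0 ≤ K) :
    ((latinSet d q).card : ℝ) ≤ Real.exp (((q : ℝ) / 2) ^ d *
      (Real.log 2 * (2 * ((q / 2 : ℕ) : ℝ) / q) +
        (Real.log (2 + K) * ((q : ℝ) ^ 2 / (r.choose 2 : ℝ)) + q * (1 / (1 + K))
        + q * ((1 - (2 / (q.factorial : ℝ)) ^ w) ^ m + m / Fintype.card β
          + 2 ^ r * (5 / 6) ^ w)))) := by
  have hq0 : (0 : ℝ) < q := by exact_mod_cast (by omega : 0 < q)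
  have hl : 0 ≤ Real.log 2 := Real.log_nonneg one_le_two
  have hl1 : Real.log 2 ≤ 1 := by
    have := Real.log_le_sub_one_of_pos (x := 2) two_pos; linarith only [this]
  have hA : 0 ≤ Real.log (2 + K) := Real.log_nonneg (by linarith)
  have hκ : 0 ≤ 1 / (1 + K) := by positivity
  refine predictor_bound (by omega) (Ω := β × (Fin d → Equiv.Perm (Fin q))) Prod.snd
    (fun ω g z u => 1 + K * ind (Ev ω.2 (J ω.1) r g z u))
    (fun ω f z s => Real.log (2 + K) * (ind (Avail ω.2 f z s) * ind (Ev ω.2 (J ω.1) r f z s))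
      + 1 / (1 + K) * ind (Avail ω.2 f z s)
      + Real.log 2 * (ind (Avail ω.2 f z s) * ind (¬ Ev ω.2 (J ω.1) r f z (f z)))) ?_ ?_ ?_ _ ?_
  · intro ω g z u
    have := mul_nonneg hK (ind_nonneg (Ev ω.2 (J ω.1) r g z u))
    linarith only [this]
  · intro ω g g' z h
    funext u
    rw [ind_congr ⟨Ev_of_agree h, Ev_of_agree fun y hy => (h y hy).symm⟩]
  · intro ω f z s _ _
    by_cases h : Avail ω.2 f z s
    swap
    · simp [ind_of_not h]
    simp only [ind_of h, one_mul, mul_one]
    have n1 := mul_nonneg hl (ind_nonneg (¬ Ev ω.2 (J ω.1) r f z (f z)))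
    have n2 := mul_nonneg hK (ind_nonneg (Ev ω.2 (J ω.1) r f z (f z)))
    by_cases h1 : Ev ω.2 (J ω.1) r f z s
    · rw [ind_of h1, mul_one, mul_one]
      calc 1 + (1 + K) / (1 + K * ind (Ev ω.2 (J ω.1) r f z (f z))) ≤ 1 + (1 + K) := by
            gcongr
            exact div_le_self (by linarith only [hK]) (by linarith)
        _ = Real.exp (Real.log (2 + K)) := by rw [Real.exp_log (by linarith only [hK])]; ring
        _ ≤ _ := Real.exp_le_exp.2 (by linarith only [hκ, n1])
    · rw [ind_of_not h1, mul_zero, mul_zero, add_zero, zero_add]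
      by_cases h2 : Ev ω.2 (J ω.1) r f z (f z)
      · rw [ind_of h2, ind_of_not (not_not.2 h2), mul_one, mul_zero, add_zero, add_comm]
        exact Real.add_one_le_exp _
      · rw [ind_of_not h2, ind_of h2, mul_zero, add_zero, mul_one]
        calc (1 : ℝ) + 1 / 1 = Real.exp (Real.log 2) := by rw [Real.exp_log two_pos]; norm_num
          _ ≤ _ := Real.exp_le_exp.2 (by linarith only [hκ])
  · intro f hf
    set η : ℝ := (1 - (2 / (q.factorial : ℝ)) ^ w) ^ m + m / Fintype.card β
          + 2 ^ r * (5 / 6) ^ w with hη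
    have hη0 : 0 ≤ η := by
      have hp1 : (2 / (q.factorial : ℝ)) ^ w ≤ 1 := by
        apply pow_le_one₀ (by positivity)
        rw [div_le_one (by positivity)]
        exact_mod_cast (Nat.factorial_le hq)
      have a1 : (0 : ℝ) ≤ (1 - (2 / (q.factorial : ℝ)) ^ w) ^ m := pow_nonneg (by linarith only [hp1]) _
      positivity
    have split : ∀ φ : β → (Fin d → Equiv.Perm (Fin q)) → ℝ,
        𝔼 ω : β × (Fin d → Equiv.Perm (Fin q)), φ ω.1 ω.2 = 𝔼 b, 𝔼 π, φ b π := by
      intro φ
      rw [← expect_product', univ_product_univ]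
    simp only [expect_add_distrib, ← mul_expect, sum_add_distrib, ← mul_sum]
    have t1 : ∑ z, ∑ s ∈ univ.erase (f z), 𝔼 ω : β × (Fin d → Equiv.Perm (Fin q)),
        ind (Avail ω.2 f z s) * ind (Ev ω.2 (J ω.1) r f z s)
        ≤ ((q : ℝ) / 2) ^ d * ((q : ℝ) ^ 2 / (r.choose 2 : ℝ)) := by
      have : ∀ z s, 𝔼 ω : β × (Fin d → Equiv.Perm (Fin q)),
          ind (Avail ω.2 f z s) * ind (Ev ω.2 (J ω.1) r f z s)
          = 𝔼 b, 𝔼 π, ind (Avail π f z s) * ind (Ev π (J b) r f z s) := fun z s =>
        split fun b π => ind (Avail π f z s) * ind (Ev π (J b) r f z s)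
      simp_rw [this, ← expect_sum_comm (univ : Finset β)]
      refine expect_le univ_nonempty fun b _ => (P4 hf (J b) hr).trans (le_of_eq ?_)
      rw [div_pow, div_pow]; ring
    have hcard : ∀ x : ℝ, 0 ≤ x → ∑ z, ∑ _s ∈ univ.erase (f z), (1 / 2) ^ d * x
        ≤ ((q : ℝ) / 2) ^ d * (q * x) := by
      intro x hx
      calc _ ≤ ∑ _z : Fin d → Fin q, ∑ _s : Fin q, (1 / 2) ^ d * x :=
            sum_le_sum fun z _ => sum_le_sum_of_subset_of_nonneg (subset_univ _)
              fun _ _ _ => by positivity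
        _ = _ := by
            simp only [sum_const, card_univ, Fintype.card_fin, nsmul_eq_mul, Fintype.card_pi,
              prod_const]
            push_cast
            rw [div_pow, div_pow]; ring
    have t2 : ∑ z, ∑ s ∈ univ.erase (f z), 𝔼 ω : β × (Fin d → Equiv.Perm (Fin q)),
        ind (Avail ω.2 f z s) ≤ ((q : ℝ) / 2) ^ d * (q * 1) := by
      refine le_trans (sum_le_sum fun z _ => sum_le_sum fun s hs => ?_) (hcard 1 zero_le_one)
      rw [split fun _ π => ind (Avail π f z s), Fintype.expect_const, mul_one]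
      exact P1 hf (ne_of_mem_erase hs)
    have t3 : ∑ z, ∑ s ∈ univ.erase (f z), 𝔼 ω : β × (Fin d → Equiv.Perm (Fin q)),
        ind (Avail ω.2 f z s) * ind (¬ Ev ω.2 (J ω.1) r f z (f z))
        ≤ ((q : ℝ) / 2) ^ d * (q * η) + ((q : ℝ) / 2) ^ d * (2 * ((q / 2 : ℕ) : ℝ) / q) := by
      calc _ ≤ ∑ z, ∑ s ∈ univ.erase (f z), ((1 / 2) ^ d * η + (1 / 2) ^ d *
            𝔼 b, ind (Full f (J b) z s ∧ ∀ s', s' ≠ f z → Full f (J b) z s' → s' = s)) := by
            refine sum_le_sum fun z _ => sum_le_sum fun s hs => ?_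
            rw [split fun b π => ind (Avail π f z s) * ind (¬ Ev π (J b) r f z (f z)), ← mul_add]
            exact third_term hf (ne_of_mem_erase hs) J hJ hw r m
        _ ≤ _ := by
            simp only [sum_add_distrib]
            refine add_le_add (hcard η hη0) ?_
            simp_rw [← mul_sum, ← expect_sum_comm (univ : Finset β)]
            rw [show ((q : ℝ) / 2) ^ d * (2 * ((q / 2 : ℕ) : ℝ) / q)
              = (1 / 2) ^ d * (2 * ((q / 2 : ℕ) : ℝ) * (q : ℝ) ^ d / q) by
                rw [div_pow, div_pow]; ring]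
            gcongr
            refine expect_le univ_nonempty fun b _ => ?_
            rw [le_div_iff₀ hq0]
            refine le_trans ?_ (uniq_count hf (J := J b) (card_pos.1 (by rw [hw b]; omega)))
            gcongr with z
            exact sum_unique_le _ _
    have hX : 0 ≤ ((q : ℝ) / 2) ^ d := by positivity
    have b1 := mul_le_mul_of_nonneg_left t1 hA
    have b2 := mul_le_mul_of_nonneg_left t2 hκ
    have b3 := mul_le_mul_of_nonneg_left t3 hl
    have b4 : Real.log 2 * (((q : ℝ) / 2) ^ d * (q * η)) ≤ ((q : ℝ) / 2) ^ d * (q * η) :=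
      mul_le_of_le_one_left (by positivity) hl1
    linarith only [b1, b2, b3, b4]

end Pool.Agent.Work.MP_85f59e_co
end

-- merged part: Pool.Agent.Work.MP_85f59e_co.Asymp
section
namespace Pool.Agent.Work.MP_85f59e_co

open Finset Function Filter Topology
open scoped BigOperators

lemma exists_windows {d w k : ℕ} (h : k * w ≤ d) :
    ∃ J : Fin k → Finset (Fin d), (Set.univ : Set (Fin k)).PairwiseDisjoint J ∧
      ∀ b, (J b).card = w := by
  let e : Fin k × Fin w → Fin d := fun p => Fin.castLE h (finProdFinEquiv p)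
  have he : Function.Injective e := (Fin.castLE_injective h).comp finProdFinEquiv.injective
  refine ⟨fun b => univ.image fun j => e (b, j), ?_, ?_⟩
  · intro b _ b' _ hb
    simp only [Function.onFun]
    rw [Finset.disjoint_left]
    intro i hi hi'
    simp only [mem_image, mem_univ, true_and] at hi hi'
    obtain ⟨j, rfl⟩ := hi
    obtain ⟨j', hj⟩ := hi'
    exact hb (congrArg Prod.fst (he hj)).symm
  · intro b
    rw [card_image_of_injective]
    · simp
    · intro j j' hj
      exact congrArg Prod.snd (he hj)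

lemma eventually_bound {q : ℕ} (hq : 2 ≤ q) {ε : ℝ} (hε : 0 < ε) :
    ∀ᶠ d in atTop, ((latinSet d q).card : ℝ) ≤
      Real.exp (((q : ℝ) / 2) ^ d * (Real.log 2 * (2 * ((q / 2 : ℕ) : ℝ) / q) + ε)) := by
  have hq0 : (0 : ℝ) < q := by exact_mod_cast (by omega : 0 < q)
  set δ : ℝ := ε / 5 / q with hδ
  have hδ0 : 0 < δ := by positivity
  have hqδ : q * δ = ε / 5 := by rw [hδ]; field_simp
  set K : ℝ := 1 / δ with hK
  have hK0 : 0 ≤ K := by positivity
  have h1 : 1 / (1 + K) ≤ δ := by
    rw [div_le_iff₀ (by positivity), hK]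
    field_simp
    linarith only [hδ0]
  obtain ⟨r, hr2, h2⟩ : ∃ r : ℕ, 2 ≤ r ∧
      Real.log (2 + K) * ((q : ℝ) ^ 2 / (r.choose 2 : ℝ)) ≤ ε / 5 := by
    obtain ⟨n, hn⟩ := exists_nat_ge (Real.log (2 + K) * (q : ℝ) ^ 2 / (ε / 5))
    refine ⟨n + 2, by omega, ?_⟩
    have hc : n + 1 ≤ (n + 2).choose 2 := by
      rw [Nat.choose_succ_succ, Nat.choose_one_right]; omega
    have hc' : (n : ℝ) + 1 ≤ ((n + 2).choose 2 : ℕ) := by exact_mod_cast hc
    have hn0 : (0 : ℝ) ≤ n := Nat.cast_nonneg _
    rw [← mul_div_assoc, div_le_iff₀ (by linarith only [hc'])]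
    rw [div_le_iff₀ (by positivity)] at hn
    linarith only [hε, hn, hc', mul_nonneg_of_nonpos_of_nonpos (le_of_lt (Mathlib.Tactic.Linarith.sub_neg_of_lt hε)) (Mathlib.Tactic.Linarith.sub_nonpos_of_le hc')]
  obtain ⟨w, hw1, h3⟩ : ∃ w : ℕ, 1 ≤ w ∧ (2 : ℝ) ^ r * (5 / 6) ^ w ≤ δ := by
    obtain ⟨n, hn⟩ := exists_pow_lt_of_lt_one (x := δ / 2 ^ r) (y := (5 / 6 : ℝ))
      (by positivity) (by norm_num)
    refine ⟨n + 1, by omega, ?_⟩
    rw [lt_div_iff₀ (by positivity)] at hn
    have : (0 : ℝ) < (5 / 6) ^ n * 2 ^ r := by positivity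
    rw [pow_succ]
    linarith only [hn, this]
  obtain ⟨m, h4⟩ : ∃ m : ℕ, (1 - (2 / (q.factorial : ℝ)) ^ w) ^ m ≤ δ := by
    have hp0 : (0 : ℝ) < (2 / (q.factorial : ℝ)) ^ w := by positivity
    obtain ⟨n, hn⟩ := exists_pow_lt_of_lt_one (x := δ) (y := 1 - (2 / (q.factorial : ℝ)) ^ w)
      hδ0 (by linarith only [hp0])
    exact ⟨n, hn.le⟩
  obtain ⟨k, hk0, h5⟩ : ∃ k : ℕ, 0 < k ∧ (m : ℝ) / k ≤ δ := by
    obtain ⟨n, hn⟩ := exists_nat_ge ((m : ℝ) / δ)
    refine ⟨n + 1, by omega, ?_⟩
    rw [div_le_iff₀ hδ0] at hn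
    rw [div_le_iff₀ (by positivity)]
    push_cast
    linarith only [hδ0, hn]
  filter_upwards [eventually_ge_atTop (k * w)] with d hd
  obtain ⟨J, hJ, hJw⟩ := exists_windows hd
  have : Nonempty (Fin k) := ⟨⟨0, hk0⟩⟩
  refine (main_bound hq J hJ hJw hw1 hr2 m hK0).trans ?_
  rw [Fintype.card_fin]
  gcongr
  have a1 := mul_le_mul_of_nonneg_left h1 hq0.le
  have a2 : (q : ℝ) * ((1 - (2 / (q.factorial : ℝ)) ^ w) ^ m + m / k + 2 ^ r * (5 / 6) ^ w)
      ≤ q * (3 * δ) := by gcongr; linarith only [h3, h4, h5]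
  linarith only [hqδ, h2, a1, a2]

lemma logb_le_of_le_exp {N : ℕ} {M : ℝ} (hM : 0 ≤ M) (h : (N : ℝ) ≤ Real.exp (Real.log 2 * M)) :
    Real.logb 2 N ≤ M := by
  rcases Nat.eq_zero_or_pos N with rfl | hN
  · simpa using hM
  · have hl : 0 < Real.log 2 := Real.log_pos one_lt_two
    rw [Real.logb, div_le_iff₀ hl, mul_comm]
    exact (Real.log_le_iff_le_exp (by exact_mod_cast hN)).2 h

theorem explicit_upper (q n : ℕ) (hq : 2 ≤ q) (hn : 2 ≤ n) :
    Real.logb 2 (numMDS q n) ≤ ((q : ℝ) - 1) * ((q : ℝ) / 2) ^ (n - 1) := by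
  obtain ⟨d, rfl⟩ : ∃ d, n = d + 1 := ⟨n - 1, by omega⟩
  rw [numMDS_eq, Nat.add_sub_cancel]
  have : (2 : ℝ) ≤ q := by exact_mod_cast hq
  exact logb_le_of_le_exp (mul_nonneg (by linarith only [this]) (by positivity)) (explicit_bound (by omega))

theorem sharp_upper (q : ℕ) (hq : 2 ≤ q) (ε : ℝ) (hε : 0 < ε) :
    ∀ᶠ n in atTop, Real.logb 2 (numMDS q n)
      ≤ (1 + ε) * ((q / 2 : ℕ) : ℝ) * ((q : ℝ) / 2) ^ (n - 2) := by
  have hq0 : (0 : ℝ) < q := by exact_mod_cast (by omega : 0 < q)
  have hl : 0 < Real.log 2 := Real.log_pos one_lt_two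
  have hh : (0 : ℝ) < ((q / 2 : ℕ) : ℝ) := by exact_mod_cast (by omega : 0 < q / 2)
  have h := eventually_bound hq (ε := Real.log 2 * (2 * ((q / 2 : ℕ) : ℝ) / q) * ε) (by positivity)
  rw [eventually_atTop] at h ⊢
  obtain ⟨d0, hd0⟩ := h
  refine ⟨d0 + 2, fun n hn => ?_⟩
  obtain ⟨d, rfl⟩ : ∃ d, n = d + 2 := ⟨n - 2, by omega⟩
  rw [numMDS_eq (d + 1), Nat.add_sub_cancel]
  refine logb_le_of_le_exp (by positivity) ((hd0 (d + 1) (by omega)).trans (le_of_eq ?_))
  congr 1
  rw [pow_succ]
  field_simp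

theorem even_ratio (q : ℕ) (hq : 2 ≤ q) (he : Even q) :
    Tendsto (fun n : ℕ => Real.logb 2 (numMDS q n) / ((q : ℝ) / 2) ^ (n - 1)) atTop (𝓝 1) := by
  obtain ⟨m, hm⟩ := he
  have hm2 : q = 2 * m := by omega
  have hm0 : 0 < m := by omega
  have hq2 : (q / 2 : ℕ) = m := by omega
  have hqm : (q : ℝ) / 2 = m := by rw [hm2]; push_cast; ring
  have hmr : (0 : ℝ) < m := by exact_mod_cast hm0
  rw [tendsto_order]
  constructor
  · intro a ha
    filter_upwards [eventually_ge_atTop 1] with n hn
    obtain ⟨d, rfl⟩ : ∃ d, n = d + 1 := ⟨n - 1, by omega⟩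
    refine ha.trans_le ?_
    rw [numMDS_eq, Nat.add_sub_cancel, hqm, le_div_iff₀ (by positivity), one_mul]
    have h1 := lower_even d m hm0
    rw [← hm2] at h1
    have h2 : ((2 : ℝ)) ^ (m ^ d) ≤ (latinSet d q).card := by exact_mod_cast h1
    calc (m : ℝ) ^ d = Real.logb 2 (2 ^ (m ^ d)) := by
          rw [Real.logb_pow, Real.logb_self_eq_one one_lt_two]; simp
      _ ≤ _ := Real.logb_le_logb_of_le one_lt_two (by positivity) h2
  · intro a ha
    filter_upwards [sharp_upper q hq ((a - 1) / 2) (by linarith only [ha]), eventually_ge_atTop 2]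
      with n h hn
    obtain ⟨d, rfl⟩ : ∃ d, n = d + 2 := ⟨n - 2, by omega⟩
    rw [hq2, hqm, Nat.add_sub_cancel] at h
    rw [hqm, div_lt_iff₀ (by positivity), show d + 2 - 1 = d + 1 from rfl, pow_succ]
    have : (0 : ℝ) < (m : ℝ) ^ d * m := by positivity
    linarith only [h, ha, this, mul_pos_of_neg_of_neg (Mathlib.Tactic.Linarith.sub_neg_of_lt ha) (Mathlib.Tactic.Linarith.sub_neg_of_lt this)]

theorem even_loglog (q : ℕ) (hq : 2 ≤ q) (he : Even q) :
    Tendsto (fun n : ℕ => Real.logb 2 (Real.logb 2 (numMDS q n)) / n) atTop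
      (𝓝 (Real.logb 2 ((q : ℝ) / 2))) := by
  have h := even_ratio q hq he
  have hq0 : (0 : ℝ) < (q : ℝ) / 2 := by
    have : (0 : ℝ) < q := by exact_mod_cast (by omega : 0 < q)
    positivity
  set L := Real.logb 2 ((q : ℝ) / 2) with hL
  have h1 : Tendsto (fun n : ℕ => Real.logb 2
      (Real.logb 2 (numMDS q n) / ((q : ℝ) / 2) ^ (n - 1))) atTop (𝓝 0) := by
    have hc : ContinuousAt (Real.logb 2) 1 := Real.continuousAt_logb one_ne_zero
    have h' := hc.tendsto.comp h
    rw [Real.logb_one] at h'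
    exact h'
  have h2 : Tendsto (fun n : ℕ => (Real.logb 2
      (Real.logb 2 (numMDS q n) / ((q : ℝ) / 2) ^ (n - 1)) - L) / (n : ℝ) + L) atTop (𝓝 (0 + L)) :=
    ((h1.sub_const L).div_atTop tendsto_natCast_atTop_atTop).add_const L
  rw [zero_add] at h2
  refine h2.congr' ?_
  filter_upwards [h.eventually (lt_mem_nhds one_pos), eventually_ge_atTop 1] with n hn hn1
  obtain ⟨d, rfl⟩ : ∃ d, n = d + 1 := ⟨n - 1, by omega⟩
  rw [Nat.add_sub_cancel] at hn ⊢
  have hp : (0 : ℝ) < ((q : ℝ) / 2) ^ d := by positivity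
  have hN : 0 < Real.logb 2 (numMDS q (d + 1)) := (div_pos_iff_of_pos_right hp).1 hn
  rw [Real.logb_div hN.ne' hp.ne', Real.logb_pow, ← hL]
  push_cast
  field_simp
  ring

end Pool.Agent.Work.MP_85f59e_co
end
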