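import Mathlib

namespace Pool.Agent.Work.MP_85f59e_co

/-- `N_q(n)`: the number of subsets `C` of `Q^n`, `Q = Fin q`, with `q^(n-1)` words, any two
distinct ones differing in at least two coordinates. -/
noncomputable def numMDS (q n : ℕ) : ℕ :=
  Nat.card {C : Finset (Fin n → Fin q) //
    C.card = q ^ (n - 1) ∧ ∀ x ∈ C, ∀ y ∈ C, x ≠ y → 2 ≤ hammingDist x y}

end Pool.Agent.Work.MP_85f59e_co
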