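import Pool.Agent.Work.MP_85f59e_co.Asymp

namespace Pool.Agent.Work.MP_85f59e_co.ExplicitUpperOld

open Pool.Agent.Work.MP_85f59e_co

/-- For all `q ≥ 2` and `n ≥ 2`: `log₂ N_q(n) ≤ (q - 1) (q/2)^(n-1)`. -/
theorem result (q n : ℕ) (hq : 2 ≤ q) (hn : 2 ≤ n) :
    Real.logb 2 (numMDS q n) ≤ ((q : ℝ) - 1) * ((q : ℝ) / 2) ^ (n - 1) :=
  explicit_upper q n hq hn

end Pool.Agent.Work.MP_85f59e_co.ExplicitUpperOld
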